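import Pool.Agent.TH74.Martin.Final
import Pool.Agent.Helper140.MC.Iso

set_option autoImplicit false
set_option linter.unusedSectionVars false

/-!
# Theories with one countable model, and locally finite theories
-/

namespace Pool.Agent.TH74.Martin

open FirstOrder FirstOrder.Language

variable {L : FirstOrder.Language.{0, 0}} [L.IsRelational]

theorem model_of_l1 {T : L.Theory} {M N : Type} [L.Structure M] [L.Structure N] (hM : M ⊨ T)
    (h : ∀ φ : L1 T 0, φ.Sat (Fin.elim0 : Fin 0 → M) → φ.Sat (Fin.elim0 : Fin 0 → N)) :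
    N ⊨ T := by
  refine ⟨fun {σ} hσ => ?_⟩
  rw [← tr_sentence]
  exact h (.fo σ) ((tr_sentence σ).2 (hM.realize_of_mem σ hσ))

theorem martin_one {T : L.Theory}
    (h : ∀ (M N : Type) [L.Structure M] [L.Structure N] [Nonempty M] [Nonempty N] [Countable M]
      [Countable N], M ⊨ T → N ⊨ T → Nonempty (M ≃[L] N)) : MartinFor T :=
  fun _ M N _ _ _ _ _ _ hM hMN => h M N hM (model_of_l1 hM hMN)

theorem types_of_l1 {T : L.Theory} {M N : Type} [L.Structure M] [L.Structure N] [Nonempty M]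
    [Nonempty N] [Countable M] [Countable N] (hM : M ⊨ T)
    (h : ∀ φ : L1 T 0, φ.Sat (Fin.elim0 : Fin 0 → M) → φ.Sat (Fin.elim0 : Fin 0 → N)) (n : ℕ)
    (v : Fin n → M) : ∃ w : Fin n → N, EEq L v w := by
  have hp : IsCompleteType T {φ : L.BoundedFormula Empty n | Tr φ v} :=
    ⟨M, inferInstance, inferInstance, inferInstance, v, hM, rfl⟩
  obtain ⟨ψ, hψ⟩ := exists_exL n (L1.conj _ hp id)
  have h1 := h ψ ((hψ M).2 ⟨v, fun φ hφ => hφ⟩)
  rw [hψ] at h1
  obtain ⟨w, hw⟩ := h1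
  exact ⟨w, eeq_of_tp fun φ hφ => hw φ hφ⟩

theorem ee_of_eeq {M N : Type} [L.Structure M] [L.Structure N] {n : ℕ} {v : Fin n → M}
    {w : Fin n → N} (h : EEq L v w) : Pool.Agent.Helper140.MC.EE L v w := by
  intro φ
  -- the formula with the free variables turned into bound ones
  have key : ∀ (X : Type) [L.Structure X] (u : Fin n → X),
      Tr (BoundedFormula.relabel (Sum.inr : Fin n → Empty ⊕ Fin n) φ :
        L.BoundedFormula Empty (n + 0)) u ↔ φ.Realize u := by
    intro X _ u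
    unfold Tr
    refine BoundedFormula.realize_relabel.trans ?_
    have e1 : (u ∘ (Fin.natAdd n : Fin 0 → Fin (n + 0))) = default := Subsingleton.elim _ _
    rw [e1]
    rfl
  rw [← key M v, ← key N w]
  exact h _

/-- Theories in whose countable models every element is in finitely many tuples satisfying any
given formula in a set which determines the symbols. -/
theorem martin_locFin {T : L.Theory} {Φ : Set (Σ n : ℕ, L.Formula (Fin n))}
    (hfin : ∀ (M : Type) [L.Structure M] [Nonempty M] [Countable M], M ⊨ T →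
      ∀ (n : ℕ) (φ : L.Formula (Fin n)), (⟨n, φ⟩ : Σ n : ℕ, L.Formula (Fin n)) ∈ Φ →
        ∀ a : M, {t : Fin n → M | φ.Realize t ∧ a ∈ Set.range t}.Finite)
    (hdet : ∀ (M N : Type) [L.Structure M] [L.Structure N] [Nonempty M] [Nonempty N]
      [Countable M] [Countable N], M ⊨ T → N ⊨ T → ∀ (k : ℕ) (a : Fin k → M) (b : Fin k → N),
      (∀ (n : ℕ) (φ : L.Formula (Fin n)), (⟨n, φ⟩ : Σ n : ℕ, L.Formula (Fin n)) ∈ Φ →
        ∀ s : Fin n → Fin k, (φ.Realize (a ∘ s) ↔ φ.Realize (b ∘ s))) →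
      ∀ R : L.Relations k, Structure.RelMap R a ↔ Structure.RelMap R b) : MartinFor T := by
  intro _ M N _ _ _ _ _ _ hM hMN
  have hN := model_of_l1 hM hMN
  have hNM : ∀ φ : L1 T 0, φ.Sat (Fin.elim0 : Fin 0 → N) → φ.Sat (Fin.elim0 : Fin 0 → M) := by
    intro φ hφ
    by_contra hcon
    exact hMN (.not φ) hcon hφ
  obtain ⟨f, hf⟩ := Pool.Agent.Helper140.MC.exists_iso (Φ := Φ)
    (Pool.Agent.Helper140.MC.FinDeg.locIsol (hfin M hM))
    (Pool.Agent.Helper140.MC.FinDeg.locIsol (hfin N hN))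
    (fun n v => by
      obtain ⟨w, hw⟩ := types_of_l1 hM hMN n v
      exact ⟨w, ee_of_eeq hw⟩)
    (fun n w => by
      obtain ⟨v, hv⟩ := types_of_l1 hN hNM n w
      exact ⟨v, ee_of_eeq hv.symm⟩)
  refine ⟨⟨f, fun g => isEmptyElim g, fun {n} R t => ?_⟩⟩
  exact (hdet M N hM hN n t (f ∘ t) (fun m φ hφ s => hf m φ hφ (t ∘ s)) R).symm

end Pool.Agent.TH74.Martin
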