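import Mathlib.ModelTheory.Satisfiability

set_option autoImplicit false

/-!
# Back-and-forth equivalence of finite rank, in a relational language
-/

namespace Pool.Agent.TH74.Martin

open FirstOrder FirstOrder.Language

variable {L : FirstOrder.Language.{0, 0}}

/-- the tuple `v` extended by `c` -/
abbrev sn {M : Type} {n : ℕ} (v : Fin n → M) (c : M) : Fin (n + 1) → M :=
  Fin.snoc (α := fun _ => M) v c

theorem sn_castSucc {M : Type} {n : ℕ} (v : Fin n → M) (c : M) (j : Fin n) :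
    sn v c j.castSucc = v j := Fin.snoc_castSucc (α := fun _ => M) _ _ _

theorem sn_last {M : Type} {n : ℕ} (v : Fin n → M) (c : M) :
    sn v c (Fin.last n) = c := Fin.snoc_last (α := fun _ => M) _ _

theorem comp_sn {M N : Type} {n : ℕ} (f : M → N) (v : Fin n → M) (c : M) :
    f ∘ sn v c = sn (f ∘ v) (f c) := by
  funext j
  refine Fin.lastCases ?_ (fun j => ?_) j
  · simp only [Function.comp_apply, sn_last]
  · simp only [Function.comp_apply, sn_castSucc]

/-- truth of a formula at a tuple -/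
abbrev Tr {M : Type} [L.Structure M] {n : ℕ} (φ : L.BoundedFormula Empty n) (v : Fin n → M) :
    Prop := φ.Realize Empty.elim v

/-- the tuples satisfy the same formulas -/
def EEq (L : FirstOrder.Language.{0, 0}) {M N : Type} [L.Structure M] [L.Structure N] {n : ℕ}
    (v : Fin n → M) (w : Fin n → N) : Prop :=
  ∀ φ : L.BoundedFormula Empty n, Tr φ v ↔ Tr φ w

/-- back-and-forth equivalence of rank `r` with respect to the symbols in `F` -/
def BF (F : Set (Σ n : ℕ, L.Relations n)) {M N : Type} [L.Structure M] [L.Structure N] :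
    ℕ → ∀ {n : ℕ}, (Fin n → M) → (Fin n → N) → Prop
  | 0, n, v, w => (∀ j k, v j = v k ↔ w j = w k) ∧ ∀ R ∈ F, ∀ s : Fin R.1 → Fin n,
      Structure.RelMap R.2 (v ∘ s) ↔ Structure.RelMap R.2 (w ∘ s)
  | r + 1, _, v, w => BF F r v w ∧ (∀ c, ∃ d, BF F r (sn v c) (sn w d)) ∧
      ∀ d, ∃ c, BF F r (sn v c) (sn w d)

section

variable {F : Set (Σ n : ℕ, L.Relations n)} {M N K : Type} [L.Structure M] [L.Structure N]
  [L.Structure K]

theorem BF.symm {r : ℕ} : ∀ {n : ℕ} {v : Fin n → M} {w : Fin n → N}, BF F r v w →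
    BF F r w v := by
  induction r with
  | zero => exact fun h => ⟨fun j k => (h.1 j k).symm, fun R hR s => (h.2 R hR s).symm⟩
  | succ r ih =>
    intro n v w h
    refine ⟨ih h.1, fun c => ?_, fun d => ?_⟩
    · obtain ⟨d, hd⟩ := h.2.2 c
      exact ⟨d, ih hd⟩
    · obtain ⟨c, hc⟩ := h.2.1 d
      exact ⟨c, ih hc⟩

theorem BF.refl (r : ℕ) : ∀ {n : ℕ} (v : Fin n → M), BF F r v v := by
  induction r with
  | zero => exact fun v => ⟨fun j k => Iff.rfl, fun R _ s => Iff.rfl⟩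
  | succ r ih => exact fun v => ⟨ih v, fun c => ⟨c, ih _⟩, fun c => ⟨c, ih _⟩⟩

theorem BF.trans {r : ℕ} : ∀ {n : ℕ} {v : Fin n → M} {w : Fin n → N} {u : Fin n → K},
    BF F r v w → BF F r w u → BF F r v u := by
  induction r with
  | zero => exact fun h h' => ⟨fun j k => (h.1 j k).trans (h'.1 j k),
      fun R hR s => (h.2 R hR s).trans (h'.2 R hR s)⟩
  | succ r ih =>
    intro n v w u h h'
    refine ⟨ih h.1 h'.1, fun c => ?_, fun d => ?_⟩
    · obtain ⟨d, hd⟩ := h.2.1 c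
      obtain ⟨e, he⟩ := h'.2.1 d
      exact ⟨e, ih hd he⟩
    · obtain ⟨c, hc⟩ := h'.2.2 d
      obtain ⟨e, he⟩ := h.2.2 c
      exact ⟨e, ih he hc⟩

theorem BF.comp {r : ℕ} : ∀ {n m : ℕ} {v : Fin n → M} {w : Fin n → N}, BF F r v w →
    ∀ g : Fin m → Fin n, BF F r (v ∘ g) (w ∘ g) := by
  induction r with
  | zero => exact fun h g => ⟨fun j k => h.1 (g j) (g k), fun R hR s => h.2 R hR (g ∘ s)⟩
  | succ r ih =>
    intro n m v w h g
    have key : ∀ (X : Type) (u : Fin n → X) (c : X),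
        sn (u ∘ g) c = sn u c ∘ sn (Fin.castSucc ∘ g) (Fin.last n) := by
      intro X u c
      rw [comp_sn, sn_last]
      congr 1
      funext j
      simp only [Function.comp_apply, sn_castSucc]
    refine ⟨ih h.1 g, fun c => ?_, fun d => ?_⟩
    · obtain ⟨d, hd⟩ := h.2.1 c
      refine ⟨d, ?_⟩
      rw [key M v c, key N w d]
      exact ih hd _
    · obtain ⟨c, hc⟩ := h.2.2 d
      refine ⟨c, ?_⟩
      rw [key M v c, key N w d]
      exact ih hc _

theorem BF.mono_rank {r s : ℕ} (hrs : r ≤ s) {n : ℕ} {v : Fin n → M} {w : Fin n → N}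
    (h : BF F s v w) : BF F r v w := by
  induction s, hrs using Nat.le_induction with
  | base => exact h
  | succ s _ ih => exact ih h.1

theorem BF.mono {F' : Set (Σ n : ℕ, L.Relations n)} (hF : F' ⊆ F) {r : ℕ} :
    ∀ {n : ℕ} {v : Fin n → M} {w : Fin n → N}, BF F r v w → BF F' r v w := by
  induction r with
  | zero => exact fun h => ⟨h.1, fun R hR s => h.2 R (hF hR) s⟩
  | succ r ih =>
    intro n v w h
    refine ⟨ih h.1, fun c => ?_, fun d => ?_⟩
    · obtain ⟨d, hd⟩ := h.2.1 c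
      exact ⟨d, ih hd⟩
    · obtain ⟨c, hc⟩ := h.2.2 d
      exact ⟨c, ih hc⟩

end

/-- the formula `x_j = x_k` -/
def eqF (L : FirstOrder.Language.{0, 0}) {n : ℕ} (j k : Fin n) : L.BoundedFormula Empty n :=
  .equal (Term.var (Sum.inr j)) (Term.var (Sum.inr k))

/-- the formula `R(x_{s 0}, …)` -/
def relF {n m : ℕ} (R : L.Relations m) (s : Fin m → Fin n) : L.BoundedFormula Empty n :=
  .rel R fun i => Term.var (Sum.inr (s i))

theorem tr_eqF {M : Type} [L.Structure M] {n : ℕ} (j k : Fin n) (v : Fin n → M) :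
    Tr (eqF L j k) v ↔ v j = v k := Iff.rfl

theorem tr_relF {M : Type} [L.Structure M] {n m : ℕ} (R : L.Relations m) (s : Fin m → Fin n)
    (v : Fin n → M) : Tr (relF R s) v ↔ Structure.RelMap R (v ∘ s) := Iff.rfl

/-- substitution of variables -/
noncomputable def sub {n k : ℕ} (φ : L.BoundedFormula Empty n) (s : Fin n → Fin k) :
    L.BoundedFormula Empty k :=
  (BoundedFormula.relabel (Sum.map id s : Empty ⊕ Fin n → Empty ⊕ Fin k) φ.toFormula :
    L.BoundedFormula Empty (k + 0))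

theorem tr_sub {M : Type} [L.Structure M] {n k : ℕ} (φ : L.BoundedFormula Empty n)
    (s : Fin n → Fin k) (v : Fin k → M) : Tr (sub φ s) v ↔ Tr φ (v ∘ s) := by
  unfold Tr sub
  refine BoundedFormula.realize_relabel.trans ?_
  have e1 : (v ∘ (Fin.natAdd k : Fin 0 → Fin (k + 0))) = default := Subsingleton.elim _ _
  rw [e1]
  refine (BoundedFormula.realize_toFormula φ _).trans ?_
  rfl

open Classical in
/-- the conjunction of the formulas in `A` and of the negations of the other formulas in `H` -/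
noncomputable def sgn {n : ℕ} (H : Set (L.BoundedFormula Empty n)) (hH : H.Finite)
    (A : Set (L.BoundedFormula Empty n)) : L.BoundedFormula Empty n :=
  haveI : Finite H := hH.to_subtype
  BoundedFormula.iInf fun ψ : H => if ψ.1 ∈ A then ψ.1 else ψ.1.not

theorem tr_sgn {M : Type} [L.Structure M] {n : ℕ} (H : Set (L.BoundedFormula Empty n))
    (hH : H.Finite) (A : Set (L.BoundedFormula Empty n)) (v : Fin n → M) :
    Tr (sgn H hH A) v ↔ ∀ ψ ∈ H, ψ ∈ A ↔ Tr ψ v := by
  classical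
  have : Finite H := hH.to_subtype
  unfold Tr sgn
  rw [BoundedFormula.realize_iInf, Subtype.forall]
  refine forall₂_congr fun ψ _ => ?_
  by_cases h : ψ ∈ A
  · simp [h]
  · simp [h]

/-- The rank `r` equivalence is given by a finite set of formulas. -/
theorem exists_hintikka (F : Set (Σ n : ℕ, L.Relations n)) (hF : F.Finite) (r : ℕ) :
    ∀ n : ℕ, ∃ H : Set (L.BoundedFormula Empty n), H.Finite ∧
      ∀ (M N : Type) [L.Structure M] [L.Structure N] (v : Fin n → M) (w : Fin n → N),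
        BF F r v w ↔ ∀ ψ ∈ H, (Tr ψ v ↔ Tr ψ w) := by
  induction r with
  | zero =>
    intro n
    refine ⟨(⋃ j : Fin n, Set.range fun k : Fin n => eqF L j k) ∪
      ⋃ R ∈ F, Set.range fun s : Fin R.1 → Fin n => relF R.2 s, ?_, ?_⟩
    · refine Set.Finite.union (Set.finite_iUnion fun j => Set.finite_range _)
        (hF.biUnion fun R _ => Set.finite_range _)
    · intro M N _ _ v w
      constructor
      · rintro ⟨h1, h2⟩ ψ (hψ | hψ)
        · obtain ⟨j, k, rfl⟩ := Set.mem_iUnion.1 hψ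
          exact h1 j k
        · obtain ⟨R, hR, s, rfl⟩ := Set.mem_iUnion₂.1 hψ
          exact h2 R hR s
      · intro h
        refine ⟨fun j k => h _ (Or.inl (Set.mem_iUnion.2 ⟨j, k, rfl⟩)), fun R hR s =>
          h _ (Or.inr (Set.mem_iUnion₂.2 ⟨R, hR, s, rfl⟩))⟩
  | succ r ih =>
    intro n
    obtain ⟨H₀, hH₀, h₀⟩ := ih n
    obtain ⟨H, hH, h⟩ := ih (n + 1)
    refine ⟨H₀ ∪ (fun A => (sgn H hH A).ex) '' {A | A ⊆ H}, ?_, ?_⟩
    · exact hH₀.union (hH.finite_subsets.image _)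
    · intro M N _ _ v w
      have key : ∀ (X : Type) [L.Structure X] (u : Fin n → X) (A : Set (L.BoundedFormula Empty (n + 1))),
          Tr (sgn H hH A).ex u ↔ ∃ c, ∀ ψ ∈ H, ψ ∈ A ↔ Tr ψ (sn u c) := by
        intro X _ u A
        unfold Tr
        rw [BoundedFormula.realize_ex]
        exact exists_congr fun c => tr_sgn H hH A (sn u c)
      constructor
      · rintro ⟨h1, h2, h3⟩ ψ (hψ | hψ)
        · exact (h₀ M N v w).1 h1 ψ hψ
        · obtain ⟨A, -, rfl⟩ := hψ
          simp only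
          rw [key, key]
          constructor
          · rintro ⟨c, hc⟩
            obtain ⟨d, hd⟩ := h2 c
            exact ⟨d, fun ψ hψ => (hc ψ hψ).trans ((h M N _ _).1 hd ψ hψ)⟩
          · rintro ⟨d, hd⟩
            obtain ⟨c, hc⟩ := h3 d
            exact ⟨c, fun ψ hψ => (hd ψ hψ).trans ((h M N _ _).1 hc ψ hψ).symm⟩
      · intro h1
        refine ⟨(h₀ M N v w).2 fun ψ hψ => h1 ψ (Or.inl hψ), fun c => ?_, fun d => ?_⟩
        · have h2 := h1 _ (Or.inr ⟨{ψ | ψ ∈ H ∧ Tr ψ (sn v c)}, fun ψ hψ => hψ.1, rfl⟩)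
          rw [key, key] at h2
          obtain ⟨d, hd⟩ := h2.1 ⟨c, fun ψ hψ => ⟨fun h3 => h3.2, fun h3 => ⟨hψ, h3⟩⟩⟩
          refine ⟨d, (h M N _ _).2 fun ψ hψ => ?_⟩
          rw [← hd ψ hψ]
          exact ⟨fun h3 => ⟨hψ, h3⟩, fun h3 => h3.2⟩
        · have h2 := h1 _ (Or.inr ⟨{ψ | ψ ∈ H ∧ Tr ψ (sn w d)}, fun ψ hψ => hψ.1, rfl⟩)
          rw [key, key] at h2
          obtain ⟨c, hc⟩ := h2.2 ⟨d, fun ψ hψ => ⟨fun h3 => h3.2, fun h3 => ⟨hψ, h3⟩⟩⟩
          refine ⟨c, (h M N _ _).2 fun ψ hψ => ?_⟩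
          rw [← hc ψ hψ]
          exact ⟨fun h3 => h3.2, fun h3 => ⟨hψ, h3⟩⟩

/-- Every formula is decided by the equivalence of some finite rank. -/
theorem exists_rank (hr : L.IsRelational) {n : ℕ} (φ : L.BoundedFormula Empty n) :
    ∃ (F : Set (Σ n : ℕ, L.Relations n)) (r : ℕ), F.Finite ∧
      ∀ (M N : Type) [L.Structure M] [L.Structure N] (v : Fin n → M) (w : Fin n → N),
        BF F r v w → (Tr φ v ↔ Tr φ w) := by
  have hterm : ∀ {m : ℕ} (t : L.Term (Empty ⊕ Fin m)), ∃ j, t = Term.var (Sum.inr j) := by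
    intro m t
    cases t with
    | var x =>
      cases x with
      | inl x => exact x.elim
      | inr j => exact ⟨j, rfl⟩
    | func f _ => exact isEmptyElim f
  induction φ with
  | falsum => exact ⟨∅, 0, Set.finite_empty, fun M N _ _ v w _ => Iff.rfl⟩
  | @equal n t₁ t₂ =>
    obtain ⟨j, rfl⟩ := hterm t₁
    obtain ⟨k, rfl⟩ := hterm t₂
    exact ⟨∅, 0, Set.finite_empty, fun M N _ _ v w h => h.1 j k⟩
  | @rel n l R ts =>
    choose s hs using fun i => hterm (ts i)
    obtain rfl : ts = fun i => Term.var (Sum.inr (s i)) := funext hs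
    exact ⟨{⟨l, R⟩}, 0, Set.finite_singleton _, fun M N _ _ v w h =>
      h.2 ⟨l, R⟩ rfl s⟩
  | imp φ ψ ih1 ih2 =>
    obtain ⟨F1, r1, hF1, h1⟩ := ih1
    obtain ⟨F2, r2, hF2, h2⟩ := ih2
    refine ⟨F1 ∪ F2, max r1 r2, hF1.union hF2, fun M N _ _ v w h => ?_⟩
    have e1 := h1 M N v w ((h.mono_rank (le_max_left _ _)).mono Set.subset_union_left)
    have e2 := h2 M N v w ((h.mono_rank (le_max_right _ _)).mono Set.subset_union_right)
    exact imp_congr e1 e2
  | all φ ih =>
    obtain ⟨F, r, hF, h1⟩ := ih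
    refine ⟨F, r + 1, hF, fun M N _ _ v w h => ?_⟩
    constructor
    · intro h2 d
      obtain ⟨c, hc⟩ := h.2.2 d
      exact (h1 M N _ _ hc).1 (h2 c)
    · intro h2 c
      obtain ⟨d, hd⟩ := h.2.1 c
      exact (h1 M N _ _ hd).2 (h2 d)

theorem EEq.bf {M N : Type} [L.Structure M] [L.Structure N] {n : ℕ} {v : Fin n → M}
    {w : Fin n → N} (h : EEq L v w) {F : Set (Σ n : ℕ, L.Relations n)} (hF : F.Finite) (r : ℕ) :
    BF F r v w := by
  obtain ⟨H, -, h1⟩ := exists_hintikka F hF r n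
  exact (h1 M N v w).2 fun ψ _ => h ψ

theorem eeq_of_bf (hr : L.IsRelational) {M N : Type} [L.Structure M] [L.Structure N] {n : ℕ}
    {v : Fin n → M} {w : Fin n → N}
    (h : ∀ F : Set (Σ n : ℕ, L.Relations n), F.Finite → ∀ r, BF F r v w) : EEq L v w := by
  intro φ
  obtain ⟨F, r, hF, h1⟩ := exists_rank hr φ
  exact h1 M N v w (h F hF r)

theorem EEq.symm {M N : Type} [L.Structure M] [L.Structure N] {n : ℕ} {v : Fin n → M}
    {w : Fin n → N} (h : EEq L v w) : EEq L w v := fun φ => (h φ).symm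

theorem EEq.comp (hr : L.IsRelational) {M N : Type} [L.Structure M] [L.Structure N] {n m : ℕ}
    {v : Fin n → M} {w : Fin n → N} (h : EEq L v w) (g : Fin m → Fin n) :
    EEq L (v ∘ g) (w ∘ g) :=
  eeq_of_bf hr fun _ hF r => (h.bf hF r).comp g

/-- The rank `r` type of `a` is expressed by a sentence. -/
theorem exists_sentence (F : Set (Σ n : ℕ, L.Relations n)) (hF : F.Finite) (r : ℕ)
    {M : Type} [L.Structure M] (a : Fin 1 → M) :
    ∃ σ : L.BoundedFormula Empty 0, ∀ (N : Type) [L.Structure N], Tr σ (Fin.elim0 : Fin 0 → N) ↔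
      ∃ b : N, BF F r a (sn Fin.elim0 b) := by
  obtain ⟨H, hH, h⟩ := exists_hintikka (L := L) F hF r 1
  refine ⟨(sgn H hH {ψ | Tr ψ a}).ex, fun N _ => ?_⟩
  unfold Tr
  rw [BoundedFormula.realize_ex]
  refine exists_congr fun c => ?_
  rw [h M N]
  exact tr_sgn H hH {ψ | Tr ψ a} (sn Fin.elim0 c)

end Pool.Agent.TH74.Martin
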