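import Pool.Agent.TH74.Martin.Rel

set_option autoImplicit false
set_option linter.unusedSectionVars false

/-!
# A model is the sum of its classes; isomorphisms of sums
-/

namespace Pool.Agent.TH74.Martin

open FirstOrder FirstOrder.Language

variable {L : FirstOrder.Language.{0, 0}} [L.IsRelational]

/-- the formulas which are used for `R` -/
def formsOf {T : L.Theory} {ε : L.BoundedFormula Empty 2} (h : IsSum T ε) (n : ℕ)
    (R : L.Relations n) : Set (L.BoundedFormula Empty n) := (h.cross n R).choose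

/-- the rule of `T` -/
def crossOf {T : L.Theory} {ε : L.BoundedFormula Empty 2} (h : IsSum T ε) : Cross L :=
  fun n R π c =>
  ∃ (M : Type) (_ : L.Structure M) (_ : Nonempty M) (_ : Countable M) (a : Fin n → M), M ⊨ T ∧
    (∀ j k, Tr ε ![a j, a k] ↔ π j k) ∧
    (∀ φ ∈ formsOf h n R, ∀ s : Fin n → Fin n, HoldsInClass ε φ (a ∘ s) ↔ c s φ) ∧
    Structure.RelMap R a

theorem finDep_crossOf {T : L.Theory} {ε : L.BoundedFormula Empty 2} (h : IsSum T ε) :
    FinDep (crossOf h) (formsOf h) := by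
  refine ⟨fun n R => (h.cross n R).choose_spec.1, fun n R π c c' hc => ?_⟩
  constructor
  · rintro ⟨M, i1, i2, i3, a, h1, h2, h3, h4⟩
    exact ⟨M, i1, i2, i3, a, h1, h2, fun φ hφ s => (h3 φ hφ s).trans (hc φ hφ s), h4⟩
  · rintro ⟨M, i1, i2, i3, a, h1, h2, h3, h4⟩
    exact ⟨M, i1, i2, i3, a, h1, h2, fun φ hφ s => (h3 φ hφ s).trans (hc φ hφ s).symm, h4⟩

theorem relMap_iff_crossOf {T : L.Theory} {ε : L.BoundedFormula Empty 2} (h : IsSum T ε)
    {M : Type} [L.Structure M] [Nonempty M] [Countable M] (hM : M ⊨ T) {n : ℕ}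
    (R : L.Relations n) (a : Fin n → M) (ha : ∃ j k, ¬ Tr ε ![a j, a k]) :
    Structure.RelMap R a ↔ crossOf h n R (fun j k => Tr ε ![a j, a k])
      fun s φ => HoldsInClass ε φ (a ∘ s) := by
  constructor
  · intro h1
    exact ⟨M, inferInstance, inferInstance, inferInstance, a, hM, fun j k => Iff.rfl,
      fun φ _ s => Iff.rfl, h1⟩
  · rintro ⟨N, i1, i2, i3, b, h1, h2, h3, h4⟩
    exact ((h.cross n R).choose_spec.2 M N hM h1 a b ha (fun j k => (h2 j k).symm)
      fun φ hφ s => (h3 φ hφ s).symm).2 h4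

instance inducedStructure {M : Type} [L.Structure M] (s : Set M) : L.Structure s := induced s

theorem relMap_induced {M : Type} [L.Structure M] (s : Set M) {n : ℕ} (R : L.Relations n)
    (t : Fin n → s) : Structure.RelMap R t ↔ Structure.RelMap R fun j => (t j : M) := Iff.rfl

theorem tr_congr_set {M : Type} [L.Structure M] {s s' : Set M} (h : s = s') {n : ℕ}
    (φ : L.BoundedFormula Empty n) (v : Fin n → s) (v' : Fin n → s')
    (hv : ∀ l, (v l : M) = v' l) : Tr φ v ↔ Tr φ v' := by
  subst h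
  have e1 : v = v' := funext fun l => Subtype.ext (hv l)
  rw [e1]

theorem tr_iso {M N : Type} [L.Structure M] [L.Structure N] (f : M ≃[L] N) {n : ℕ}
    (φ : L.BoundedFormula Empty n) (v : Fin n → M) : Tr φ (f ∘ v) ↔ Tr φ v := by
  have h1 := StrongHomClass.realize_boundedFormula f φ (v := Empty.elim) (xs := v)
  have e1 : (f ∘ Empty.elim : Empty → N) = Empty.elim := Subsingleton.elim _ _
  rw [e1] at h1
  exact h1

/-- **A model is the sum of its classes.** -/
theorem exists_sum [IsEmpty (L.Relations 0)] {T : L.Theory} {ε : L.BoundedFormula Empty 2}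
    (h : IsSum T ε) (M : Type) [L.Structure M] [Nonempty M] [Countable M] (hM : M ⊨ T) :
    ∃ (I : Type) (_ : Countable I) (_ : Nonempty I) (c : I → M),
      Dfs (crossOf h) ε (fun i => cls ε (c i)) ∧ (∀ i, Nonempty (cls ε (c i))) ∧
      Nonempty (M ≃[L] Sm (crossOf h) fun i => cls ε (c i)) := by
  have hE := h.equiv M hM
  let s : Setoid M := ⟨fun a b => Tr ε ![a, b], hE⟩
  have hmk : ∀ a b : M, Quotient.mk s a = Quotient.mk s b ↔ Tr ε ![a, b] :=
    fun a b => ⟨fun h => Quotient.exact h, fun h => Quotient.sound h⟩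
  have hout : ∀ a : M, Tr ε ![(Quotient.mk s a).out, a] := fun a =>
    (hmk _ _).1 (Quotient.out_eq _)
  have hmem : ∀ (q : Quotient s) (y : M), y ∈ cls ε q.out ↔ Quotient.mk s y = q := by
    intro q y
    change Tr ε ![q.out, y] ↔ _
    rw [← hmk, Quotient.out_eq]
    exact eq_comm
  have hmem' : ∀ a b : M, b ∈ cls ε a ↔ Quotient.mk s b = Quotient.mk s a := by
    intro a b
    change Tr ε ![a, b] ↔ _
    rw [← hmk]
    exact eq_comm
  let e : M ≃ Sm (crossOf h) fun q : Quotient s => cls ε q.out :=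
    { toFun := fun x => inn _ (Quotient.mk s x) ⟨x, hout x⟩
      invFun := fun y => y.2.1
      left_inv := fun x => rfl
      right_inv := fun y => by
        obtain ⟨q, y, hy⟩ := y
        obtain rfl := (hmem q y).1 hy
        rfl }
  have he : ∀ (q : Quotient s) (x : M) (hq : Quotient.mk s x = q),
      e x = inn _ q (⟨x, (hmem _ _).2 hq⟩ : cls ε q.out) := by
    intro q x hq
    subst hq
    rfl
  have hrel : ∀ {n : ℕ} (R : L.Relations n) (t : Fin n → M),
      Structure.RelMap R (e ∘ t) ↔ Structure.RelMap R t := by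
    intro n R t
    have hn := pos_of_rel R
    by_cases ht : ∃ j k, ¬ Tr ε ![t j, t k]
    · rw [relMap_iff_crossOf h hM R t ht, relMap_out R (e ∘ t)]
      · have e1 : (fun j k => ((e ∘ t) j).1 = ((e ∘ t) k).1) =
            fun j k => Tr ε ![t j, t k] := by
          funext j k
          exact propext (hmk (t j) (t k))
        rw [e1]
        have e2 : ld (e ∘ t) = fun s φ => HoldsInClass ε φ (t ∘ s) := by
          funext s' φ
          refine propext ⟨?_, ?_⟩
          · rintro ⟨q, v, h1, h2⟩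
            exact ⟨q.out, v, fun l => (congrArg (fun y => (y.2.1 : M)) (h1 l)).symm, h2⟩
          · rintro ⟨c, v, h1, h2⟩
            have h3 : cls ε c = cls ε (Quotient.mk s c).out := by
              ext y
              rw [hmem', hmem]
            have h4 : ∀ l, Quotient.mk s (t (s' l)) = Quotient.mk s c := by
              intro l
              rw [← hmem']
              have h5 := (v l).2
              rwa [h1 l] at h5
            refine ⟨Quotient.mk s c, fun l => ⟨t (s' l), (hmem _ _).2 (h4 l)⟩, fun l =>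
              he _ _ (h4 l), ?_⟩
            exact (tr_congr_set h3 φ v _ h1).1 h2
        rw [e2]
      · obtain ⟨j, k, hjk⟩ := ht
        exact ⟨j, k, fun h1 => hjk ((hmk (t j) (t k)).1 h1)⟩
    · have h1 : ∀ j, Quotient.mk s (t j) = Quotient.mk s (t ⟨0, hn⟩) := by
        intro j
        rw [hmk]
        by_contra h2
        exact ht ⟨_, _, h2⟩
      have e1 : e ∘ t = fun j => inn _ (Quotient.mk s (t ⟨0, hn⟩))
          (⟨t j, (hmem _ _).2 (h1 j)⟩ : cls ε (Quotient.mk s (t ⟨0, hn⟩)).out) :=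
        funext fun j => he _ _ (h1 j)
      rw [e1, relMap_in hn, relMap_induced]
  let f : M ≃[L] Sm (crossOf h) fun q : Quotient s => cls ε q.out :=
    ⟨e, fun f => isEmptyElim f, fun R t => hrel R t⟩
  refine ⟨Quotient s, inferInstance, ⟨Quotient.mk s (Classical.arbitrary M)⟩, Quotient.out,
    fun x y => ?_, fun q => ⟨⟨q.out, hE.refl _⟩⟩, ⟨f⟩⟩
  have h1 := tr_iso f ε ![f.symm x, f.symm y]
  rw [comp_pair, FirstOrder.Language.Equiv.apply_symm_apply,
    FirstOrder.Language.Equiv.apply_symm_apply] at h1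
  rw [h1]
  refine (hmk _ _).symm.trans ?_
  have h2 : ∀ z : M, (f z).1 = Quotient.mk s z := fun z => rfl
  rw [← h2, ← h2, FirstOrder.Language.Equiv.apply_symm_apply,
    FirstOrder.Language.Equiv.apply_symm_apply]

variable {δ : Cross L} {I J : Type} {C : I → Type} {D : J → Type}
  [∀ i, L.Structure (C i)] [∀ j, L.Structure (D j)] {ε : L.BoundedFormula Empty 2}

/-- sums of isomorphic structures are isomorphic -/
theorem sum_iso [IsEmpty (L.Relations 0)] (e : I ≃ J) (f : ∀ i, C i ≃[L] D (e i)) :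
    Nonempty (Sm δ C ≃[L] Sm δ D) := by
  let g : Sm δ C ≃ Sm δ D := Equiv.sigmaCongr e fun i => (f i).toEquiv
  have hg : ∀ i (a : C i), g (inn δ i a) = inn δ (e i) (f i a) := fun i a => rfl
  have hg1 : ∀ x : Sm δ C, (g x).1 = e x.1 := fun x => rfl
  refine ⟨⟨g, fun f => isEmptyElim f, fun {n} R t => ?_⟩⟩
  change Structure.RelMap R (g ∘ t) ↔ Structure.RelMap R t
  have hn := pos_of_rel R
  by_cases ht : ∃ j k, (t j).1 ≠ (t k).1
  · rw [relMap_out R t ht, relMap_out R (g ∘ t)]
    · have e1 : (fun j k => ((g ∘ t) j).1 = ((g ∘ t) k).1) = fun j k => (t j).1 = (t k).1 := by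
        funext j k
        refine propext ?_
        rw [Function.comp_apply, Function.comp_apply, hg1, hg1]
        exact e.injective.eq_iff
      rw [e1]
      have e2 : ld (L := L) (g ∘ t) = ld t := by
        funext s φ
        refine propext ⟨?_, ?_⟩
        · rintro ⟨j, w, h1, h2⟩
          have h3 : ∀ l, (t (s l)).1 = (t (s ⟨0, hn⟩)).1 := fun l =>
            e.injective ((congrArg Sigma.fst (h1 l)).trans (congrArg Sigma.fst (h1 ⟨0, hn⟩)).symm)
          choose v hv using fun l => eq_inn (t (s l)) (h3 l)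
          refine ⟨_, v, hv, ?_⟩
          obtain rfl : e (t (s ⟨0, hn⟩)).1 = j := congrArg Sigma.fst (h1 ⟨0, hn⟩)
          rw [← tr_iso (f (t (s ⟨0, hn⟩)).1) φ v]
          have e3 : (f (t (s ⟨0, hn⟩)).1) ∘ v = w := by
            funext l
            refine inn_inj (δ := δ) ?_
            refine Eq.trans ?_ (h1 l)
            exact ((congrArg g (hv l)).trans (hg _ _)).symm
          rw [e3]
          exact h2
        · rintro ⟨i, v, h1, h2⟩
          refine ⟨e i, f i ∘ v, fun l => ?_, (tr_iso (f i) φ v).2 h2⟩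
          exact (congrArg g (h1 l)).trans (hg _ _)
      rw [e2]
    · obtain ⟨j, k, hjk⟩ := ht
      exact ⟨j, k, fun h1 => hjk (e.injective h1)⟩
  · have h1 : ∀ j, (t j).1 = (t ⟨0, hn⟩).1 := by
      intro j
      by_contra h2
      exact ht ⟨_, _, h2⟩
    choose s hs using fun j => eq_inn (t j) (h1 j)
    have e1 : t = fun j => inn δ _ (s j) := funext hs
    rw [e1]
    have e2 : (g ∘ fun j => inn δ (t ⟨0, hn⟩).1 (s j)) =
        fun j => inn δ (e (t ⟨0, hn⟩).1) ((f (t ⟨0, hn⟩).1 ∘ s) j) := rfl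
    rw [e2, relMap_in hn, relMap_in hn]
    exact (f (t ⟨0, hn⟩).1).map_rel R s

/-- an isomorphism of sums matches isomorphic classes -/
theorem iso_sum [IsEmpty (L.Relations 0)] (hC : Dfs δ ε C) (hD : Dfs δ ε D)
    [∀ i, Nonempty (C i)] [∀ j, Nonempty (D j)] (f : Sm δ C ≃[L] Sm δ D) :
    ∃ e : I ≃ J, ∀ i, Nonempty (C i ≃[L] D (e i)) := by
  have h1 : ∀ x y : Sm δ C, (f x).1 = (f y).1 ↔ x.1 = y.1 := by
    intro x y
    refine (hD _ _).symm.trans (Iff.trans ?_ (hC _ _))
    rw [← tr_iso f ε ![x, y], comp_pair]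
  let pt : ∀ i, Sm δ C := fun i => inn δ i (Classical.arbitrary (C i))
  have hinj : Function.Injective fun i => (f (pt i)).1 := fun i i' h => (h1 _ _).1 h
  have hsurj : Function.Surjective fun i => (f (pt i)).1 := by
    intro j
    refine ⟨(f.symm (inn δ j (Classical.arbitrary (D j)))).1, ?_⟩
    have h2 := (h1 (pt (f.symm (inn δ j (Classical.arbitrary (D j)))).1)
      (f.symm (inn δ j (Classical.arbitrary (D j))))).2 rfl
    rw [FirstOrder.Language.Equiv.apply_symm_apply] at h2
    exact h2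
  refine ⟨Equiv.ofBijective _ ⟨hinj, hsurj⟩, fun i => ?_⟩
  change Nonempty (C i ≃[L] D (f (pt i)).1)
  choose g hg using fun a : C i => eq_inn (f (inn δ i a)) ((h1 (inn δ i a) (pt i)).2 rfl)
  have gi : Function.Injective g := by
    intro a b hab
    refine inn_inj (δ := δ) (i := i) (f.injective ?_)
    exact (hg a).trans ((congrArg (inn δ (f (pt i)).1) hab).trans (hg b).symm)
  have gs : Function.Surjective g := by
    intro b
    have h2 : (f.symm (inn δ (f (pt i)).1 b)).1 = i := by
      have h3 := h1 (f.symm (inn δ (f (pt i)).1 b)) (pt i)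
      rw [FirstOrder.Language.Equiv.apply_symm_apply] at h3
      exact h3.1 rfl
    obtain ⟨a, ha⟩ := eq_inn _ h2
    refine ⟨a, inn_inj (δ := δ) (i := (f (pt i)).1) ?_⟩
    refine (hg a).symm.trans ?_
    rw [← ha, FirstOrder.Language.Equiv.apply_symm_apply]
  refine ⟨⟨Equiv.ofBijective g ⟨gi, gs⟩, fun f => isEmptyElim f, fun {n} R t => ?_⟩⟩
  change Structure.RelMap R (g ∘ t) ↔ Structure.RelMap R t
  rw [← relMap_in (δ := δ) (pos_of_rel R), ← relMap_in (δ := δ) (pos_of_rel R), ← f.map_rel]
  have e1 : (fun j => inn δ (f (pt i)).1 ((g ∘ t) j)) = f ∘ fun j => inn δ i (t j) := by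
    funext j
    exact (hg (t j)).symm
  rw [e1]

/-- transfer of formulas of `L₁` along isomorphisms -/
theorem L1.sat_iso {T : L.Theory} {M N : Type} [L.Structure M] [L.Structure N] (f : M ≃[L] N)
    {n : ℕ} (φ : L1 T n) : ∀ a : Fin n → M, φ.Sat (f ∘ a) ↔ φ.Sat a := by
  induction φ with
  | fo φ => exact fun a => tr_iso f φ a
  | conj p hp v => exact fun a => forall₂_congr fun ψ _ => tr_iso f ψ fun i => a (v i)
  | not φ ih => exact fun a => not_congr (ih a)
  | and φ ψ ih1 ih2 => exact fun a => and_congr (ih1 a) (ih2 a)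
  | all φ ih =>
    intro a
    change (∀ x : N, φ.Sat (sn (f ∘ a) x)) ↔ ∀ x : M, φ.Sat (sn a x)
    constructor
    · intro h x
      rw [← ih, comp_sn]
      exact h _
    · intro h y
      have h1 := (ih _).2 (h (f.symm y))
      rw [comp_sn, FirstOrder.Language.Equiv.apply_symm_apply] at h1
      exact h1

end Pool.Agent.TH74.Martin
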