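import Mathlib.ModelTheory.Satisfiability

set_option autoImplicit false

/-!
# Definitions: the fragment `L₁(T)`, Martin's conjecture for `T`, sums of classes
-/

namespace Pool.Agent.TH74.Martin

open FirstOrder FirstOrder.Language

variable {L : FirstOrder.Language.{0, 0}}

/-- `p` is the complete type of an `n`-tuple in some countable model of `T`. -/
def IsCompleteType (T : L.Theory) {n : ℕ} (p : Set (L.BoundedFormula Empty n)) : Prop :=
  ∃ (M : Type) (_ : L.Structure M) (_ : Nonempty M) (_ : Countable M) (a : Fin n → M),
    M ⊨ T ∧ p = {φ | φ.Realize Empty.elim a}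

/-- The formulas of the fragment `L₁(T)` with `n` free variables: first-order formulas, the
conjunctions `⋀_{φ ∈ p} φ(x_{v 0}, …, x_{v (k-1)})` for complete types `p` of `T`, and everything
obtained from these by negation, conjunction and quantification. -/
inductive L1 (T : L.Theory) : ℕ → Type
  | fo {n : ℕ} (φ : L.BoundedFormula Empty n) : L1 T n
  | conj {n k : ℕ} (p : Set (L.BoundedFormula Empty k)) (hp : IsCompleteType T p)
      (v : Fin k → Fin n) : L1 T n
  | not {n : ℕ} (φ : L1 T n) : L1 T n
  | and {n : ℕ} (φ ψ : L1 T n) : L1 T n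
  | all {n : ℕ} (φ : L1 T (n + 1)) : L1 T n

/-- Satisfaction of formulas of `L₁(T)`. -/
def L1.Sat {T : L.Theory} {M : Type} [L.Structure M] : {n : ℕ} → L1 T n → (Fin n → M) → Prop
  | _, .fo φ, a => φ.Realize Empty.elim a
  | _, .conj p _ v, a => ∀ φ ∈ p, φ.Realize Empty.elim (fun i => a (v i))
  | _, .not φ, a => ¬ φ.Sat a
  | _, .and φ ψ, a => φ.Sat a ∧ ψ.Sat a
  | _, .all φ, a => ∀ x : M, φ.Sat (Fin.snoc a x : Fin _ → M)

/-- `T` has few countable models: there is no family of pairwise non-isomorphic countable models
of `T` indexed by the Cantor space. -/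
def Few (T : L.Theory) : Prop :=
  ¬ ∃ (M : (ℕ → Bool) → Type) (_ : ∀ x, L.Structure (M x)),
    (∀ x, Nonempty (M x) ∧ Countable (M x) ∧ M x ⊨ T) ∧
      ∀ x y, Nonempty (M x ≃[L] M y) → x = y

/-- Martin's conjecture for `T`: if `T` has few countable models, then every countable structure
which satisfies all the `L₁(T)`-sentences true in a countable model `M` of `T` is isomorphic
to `M`. -/
def MartinFor (T : L.Theory) : Prop :=
  Few T → ∀ (M N : Type) [L.Structure M] [L.Structure N] [Nonempty M] [Nonempty N] [Countable M]
    [Countable N], M ⊨ T →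
      (∀ φ : L1 T 0, φ.Sat (Fin.elim0 : Fin 0 → M) → φ.Sat (Fin.elim0 : Fin 0 → N)) →
        Nonempty (M ≃[L] N)

/-- the induced structure on a subset -/
def induced [L.IsRelational] {M : Type} [L.Structure M] (s : Set M) : L.Structure s where
  funMap := fun f => isEmptyElim f
  RelMap := fun R t => Structure.RelMap R fun j => (t j : M)

/-- the class of `a` with respect to the formula `ε(x₀, x₁)` -/
def cls (ε : L.BoundedFormula Empty 2) {M : Type} [L.Structure M] (a : M) : Set M :=
  {b | ε.Realize Empty.elim ![a, b]}

/-- the complete theory of the class of `a` -/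
def clsTheory [L.IsRelational] (ε : L.BoundedFormula Empty 2) {M : Type} [L.Structure M]
    (a : M) : L.Theory :=
  @completeTheory L (cls ε a) (induced (cls ε a))

/-- The entries of `a` are in one class, and `φ` holds of `a` in this class. -/
def HoldsInClass [L.IsRelational] (ε : L.BoundedFormula Empty 2) {M : Type} [L.Structure M]
    {n : ℕ} (φ : L.BoundedFormula Empty n) (a : Fin n → M) : Prop :=
  ∃ (c : M) (v : Fin n → cls ε c), (∀ l, (v l : M) = a l) ∧
    @BoundedFormula.Realize L (cls ε c) (induced (cls ε c)) Empty n φ Empty.elim v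

/-- The models of `T` are sums of their `ε`-classes: `ε(x₀, x₁)` defines an equivalence relation,
and the truth value of a symbol `R` at a tuple which is not contained in one class depends only on
the pattern of the tuple (which of its entries are equivalent) and on the truth values of finitely
many formulas for the tuples formed of its entries inside the classes, evaluated in the classes. -/
structure IsSum [L.IsRelational] (T : L.Theory) (ε : L.BoundedFormula Empty 2) : Prop where
  equiv : ∀ (M : Type) [L.Structure M] [Nonempty M] [Countable M], M ⊨ T →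
    Equivalence fun a b : M => ε.Realize Empty.elim ![a, b]
  cross : ∀ (n : ℕ) (R : L.Relations n), ∃ Φ : Set (L.BoundedFormula Empty n), Φ.Finite ∧
    ∀ (M N : Type) [L.Structure M] [L.Structure N] [Nonempty M] [Nonempty N] [Countable M]
      [Countable N], M ⊨ T → N ⊨ T → ∀ (a : Fin n → M) (b : Fin n → N),
      (∃ j k, ¬ ε.Realize Empty.elim ![a j, a k]) →
      (∀ j k, ε.Realize Empty.elim ![a j, a k] ↔ ε.Realize Empty.elim ![b j, b k]) →
      (∀ φ ∈ Φ, ∀ s : Fin n → Fin n, HoldsInClass ε φ (a ∘ s) ↔ HoldsInClass ε φ (b ∘ s)) →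
      (Structure.RelMap R a ↔ Structure.RelMap R b)

end Pool.Agent.TH74.Martin
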