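import Pool.Agent.TH74.Martin.Main

set_option autoImplicit false
set_option linter.unusedSectionVars false

/-!
# The theorem
-/

namespace Pool.Agent.TH74.Martin

open FirstOrder FirstOrder.Language

/-- Two countable sets with the same finite lower bounds for the sizes of the fibres. -/
theorem fiber_equiv {A B : Type} {K : Type*} [Countable A] [Countable B] (f : A → K) (g : B → K)
    (h : ∀ κ (n : ℕ), (∃ x : Fin n → A, Function.Injective x ∧ ∀ i, f (x i) = κ) ↔
      ∃ y : Fin n → B, Function.Injective y ∧ ∀ i, g (y i) = κ) :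
    ∃ e : A ≃ B, ∀ a, g (e a) = f a := by
  have key : ∀ κ, Nonempty ({a // f a = κ} ≃ {b // g b = κ}) := by
    intro κ
    have hA : ∀ (X : Type) (u : X → K) (n : ℕ), Nonempty (Fin n ↪ {a // u a = κ}) ↔
        ∃ x : Fin n → X, Function.Injective x ∧ ∀ i, u (x i) = κ := by
      intro X u n
      constructor
      · rintro ⟨x⟩
        exact ⟨fun i => (x i).1, fun i j hij => x.injective (Subtype.ext hij), fun i => (x i).2⟩
      · rintro ⟨x, hx, hx'⟩
        exact ⟨⟨fun i => ⟨x i, hx' i⟩, fun i j hij => hx (congrArg Subtype.val hij)⟩⟩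
    have h1 : ∀ n : ℕ, Nonempty (Fin n ↪ {a // f a = κ}) ↔ Nonempty (Fin n ↪ {b // g b = κ}) := by
      intro n
      rw [hA, hA]
      exact h κ n
    have hfin : ∀ (X Y : Type), (∀ n : ℕ, Nonempty (Fin n ↪ X) ↔ Nonempty (Fin n ↪ Y)) →
        Finite X → Finite Y := by
      intro X Y hXY hX
      by_contra hY
      rw [not_finite_iff_infinite] at hY
      have : Fintype X := Fintype.ofFinite X
      have h2 : Nonempty (Fin (Fintype.card X + 1) ↪ Y) :=
        ⟨Fin.valEmbedding.trans (Infinite.natEmbedding Y)⟩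
      obtain ⟨e⟩ := (hXY _).2 h2
      have := Fintype.card_le_of_embedding e
      simp at this
    by_cases hX : Finite {a // f a = κ}
    · have hY := hfin _ _ h1 hX
      have : Fintype {a // f a = κ} := Fintype.ofFinite _
      have : Fintype {b // g b = κ} := Fintype.ofFinite _
      have e1 : Fintype.card {a // f a = κ} ≤ Fintype.card {b // g b = κ} := by
        obtain ⟨e⟩ := (h1 (Fintype.card {a // f a = κ})).1
          ⟨(Fintype.equivFin _).symm.toEmbedding⟩
        have := Fintype.card_le_of_embedding e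
        rwa [Fintype.card_fin] at this
      have e2 : Fintype.card {b // g b = κ} ≤ Fintype.card {a // f a = κ} := by
        obtain ⟨e⟩ := (h1 (Fintype.card {b // g b = κ})).2
          ⟨(Fintype.equivFin _).symm.toEmbedding⟩
        have := Fintype.card_le_of_embedding e
        rwa [Fintype.card_fin] at this
      exact ⟨Fintype.equivOfCardEq (le_antisymm e1 e2)⟩
    · have hY : ¬ Finite {b // g b = κ} := fun hY => hX (hfin _ _ (fun n => (h1 n).symm) hY)
      rw [not_finite_iff_infinite] at hX hY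
      exact nonempty_equiv_of_countable
  let E : A ≃ B := (Equiv.sigmaFiberEquiv f).symm.trans
    ((Equiv.sigmaCongrRight fun κ => (key κ).some).trans (Equiv.sigmaFiberEquiv g))
  refine ⟨E, fun a => ?_⟩
  have : E a = ((key (f a)).some ⟨a, rfl⟩).1 := rfl
  rw [this]
  exact ((key (f a)).some ⟨a, rfl⟩).2

variable {L : FirstOrder.Language.{0, 0}} [L.IsRelational] [IsEmpty (L.Relations 0)]

/-- Classes of a given isomorphism type are transferred. -/
theorem transfer {T : L.Theory} (hT : T.IsComplete) {ε : L.BoundedFormula Empty 2} (h : IsSum T ε)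
    (hfew : Few T) {I J : Type} {C : I → Type} {D : J → Type} [∀ i, L.Structure (C i)]
    [∀ j, L.Structure (D j)] [Nonempty I] [Nonempty J] [Countable I] [Countable J]
    [∀ i, Nonempty (C i)] [∀ j, Nonempty (D j)] [∀ i, Countable (C i)] [∀ j, Countable (D j)]
    (hC : Dfs (crossOf h) ε C) (hD : Dfs (crossOf h) ε D) (hM : Sm (crossOf h) C ⊨ T)
    (hN : Sm (crossOf h) D ⊨ T)
    (hMN : ∀ φ : L1 T 0, φ.Sat (Fin.elim0 : Fin 0 → Sm (crossOf h) C) →
      φ.Sat (Fin.elim0 : Fin 0 → Sm (crossOf h) D))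
    (i₀ : I) (hm : MartinFor (L.completeTheory (C i₀))) (k : ℕ) (f : Fin k → I)
    (hf : Function.Injective f) (hf' : ∀ l, ity (L := L) (C (f l)) = ity (L := L) (C i₀)) :
    ∃ g : Fin k → J, Function.Injective g ∧
      ∀ l, ity (L := L) (D (g l)) = ity (L := L) (C i₀) := by
  classical
  have hQ := finite_types h hD hN hfew (X := C i₀)
  obtain ⟨θ, hθ1, hθ2⟩ := exists_sep hm (few_class h hC hM hfew i₀) hQ
  have h0 : C i₀ ⊨ L.completeTheory (C i₀) := th_iff.2 fun σ => Iff.rfl
  have hiso : ∀ l, Nonempty (C i₀ ≃[L] C (f l)) := fun l => ity_eq.1 (hf' l).symm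
  have hth : ∀ l, C (f l) ⊨ L.completeTheory (C i₀) := fun l => th_of_iso (hiso l) h0
  let a : Fin k → Sm (crossOf h) C := fun l => inn _ (f l) (Classical.arbitrary (C (f l)))
  obtain ⟨ψ₁, hψ₁⟩ := exists_conjL k fun l : Fin k =>
    trL h (L.completeTheory (C i₀)) l θ
  have hp : IsCompleteType T {φ : L.BoundedFormula Empty k | Tr φ a} :=
    ⟨Sm (crossOf h) C, inferInstance, inferInstance, inferInstance, a, hM, rfl⟩
  obtain ⟨ψ, hψ⟩ := exists_exL k (L1.and (.conj _ hp id) ψ₁)
  have h1 : ψ.Sat (Fin.elim0 : Fin 0 → Sm (crossOf h) C) := by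
    rw [hψ]
    refine ⟨a, fun φ hφ => hφ, (hψ₁ _ a).2 fun l => ?_⟩
    refine (sat_trL hT h hC hM (hth l) l θ a Fin.elim0 (fun j => j.elim0) rfl).2 ?_
    obtain ⟨e⟩ := hiso l
    have h4 := (L1.sat_iso e θ Fin.elim0).2 hθ1
    have e1 : (e ∘ Fin.elim0 : Fin 0 → C (f l)) = Fin.elim0 := Subsingleton.elim _ _
    rwa [e1] at h4
  have h2 := hMN ψ h1
  rw [hψ] at h2
  obtain ⟨b, hb1, hb2⟩ := h2
  have hab : EEq L a b := eeq_of_tp fun φ hφ => hb1 φ hφ
  rw [hψ₁] at hb2
  have hth' : ∀ l, D (b l).1 ⊨ L.completeTheory (C i₀) := by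
    intro l
    rw [th_iff]
    intro σ
    have e1 := tr_rl hC l (i := f l) σ a Fin.elim0 (fun j => j.elim0) rfl
    have e2 := tr_rl hD l (i := (b l).1) σ b Fin.elim0 (fun j => j.elim0) rfl
    exact (th_iff.1 (hth l) σ).trans ((tr_sentence σ).symm.trans
      (e1.symm.trans ((hab _).trans (e2.trans (tr_sentence σ)))))
  refine ⟨fun l => (b l).1, fun l l' hl => ?_, fun l => ?_⟩
  · apply hf
    have h3 := hab (sub ε ![l, l'])
    rw [tr_sub, tr_sub, comp_pair, comp_pair] at h3
    have h4 := (hC _ _).symm.trans (h3.trans (hD _ _))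
    exact h4.2 hl
  · have h3 := (sat_trL hT h hD hN (hth' l) l θ b Fin.elim0 (fun j => j.elim0) rfl).1 (hb2 l)
    exact (ity_eq.2 (hθ2 (D (b l).1) ⟨(b l).1, hth' l, rfl⟩ h3)).symm

/-- **Martin's conjecture for sums.** -/
theorem martin_sum {T : L.Theory} (hT : T.IsComplete) {ε : L.BoundedFormula Empty 2} (h : IsSum T ε)
    (hcls : ∀ (M : Type) [L.Structure M] [Nonempty M] [Countable M], M ⊨ T → ∀ a : M,
      MartinFor (clsTheory ε a)) : MartinFor T := by
  intro hfew M N _ _ _ _ _ _ hM hMN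
  have hN : N ⊨ T := by
    refine ⟨fun {σ} hσ => ?_⟩
    rw [← tr_sentence]
    exact hMN (.fo σ) ((tr_sentence σ).2 (hM.realize_of_mem σ hσ))
  obtain ⟨I, i1, i2, c, hC, i3, ⟨e₁⟩⟩ := exists_sum h M hM
  obtain ⟨J, j1, j2, d, hD, j3, ⟨e₂⟩⟩ := exists_sum h N hN
  have hM' : Sm (crossOf h) (fun i => cls ε (c i)) ⊨ T := StrongHomClass.theory_model e₁
  have hN' : Sm (crossOf h) (fun j => cls ε (d j)) ⊨ T := StrongHomClass.theory_model e₂
  have hsat : ∀ {X Y : Type} [L.Structure X] [L.Structure Y] (e : X ≃[L] Y) (φ : L1 T 0),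
      φ.Sat (Fin.elim0 : Fin 0 → X) ↔ φ.Sat (Fin.elim0 : Fin 0 → Y) := by
    intro X Y _ _ e φ
    have h4 := L1.sat_iso e φ Fin.elim0
    have e1 : (e ∘ Fin.elim0 : Fin 0 → Y) = Fin.elim0 := Subsingleton.elim _ _
    rw [e1] at h4
    exact h4.symm
  have hMN' : ∀ φ : L1 T 0, φ.Sat (Fin.elim0 : Fin 0 → Sm (crossOf h) (fun i => cls ε (c i))) →
      φ.Sat (Fin.elim0 : Fin 0 → Sm (crossOf h) (fun j => cls ε (d j))) := fun φ hφ =>
    (hsat e₂ φ).1 (hMN φ ((hsat e₁ φ).2 hφ))
  have hNM' : ∀ φ : L1 T 0, φ.Sat (Fin.elim0 : Fin 0 → Sm (crossOf h) (fun j => cls ε (d j))) →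
      φ.Sat (Fin.elim0 : Fin 0 → Sm (crossOf h) (fun i => cls ε (c i))) := by
    intro φ hφ
    by_contra hcon
    exact hMN' (.not φ) hcon hφ
  obtain ⟨e, he⟩ := fiber_equiv (fun i => ity (L := L) (cls ε (c i)))
    (fun j => ity (L := L) (cls ε (d j))) (by
      intro κ n
      constructor
      · rintro ⟨x, hx, hx'⟩
        cases n with
        | zero => exact ⟨Fin.elim0, fun i => i.elim0, fun i => i.elim0⟩
        | succ n =>
          obtain ⟨g, hg, hg'⟩ := transfer hT h hfew hC hD hM' hN' hMN' (x 0)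
            (hcls M hM (c (x 0))) (n + 1) x hx fun l => (hx' l).trans (hx' 0).symm
          exact ⟨g, hg, fun l => (hg' l).trans (hx' 0)⟩
      · rintro ⟨x, hx, hx'⟩
        cases n with
        | zero => exact ⟨Fin.elim0, fun i => i.elim0, fun i => i.elim0⟩
        | succ n =>
          obtain ⟨g, hg, hg'⟩ := transfer hT h hfew hD hC hN' hM' hNM' (x 0)
            (hcls N hN (d (x 0))) (n + 1) x hx fun l => (hx' l).trans (hx' 0).symm
          exact ⟨g, hg, fun l => (hg' l).trans (hx' 0)⟩)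
  obtain ⟨e₃⟩ := sum_iso (δ := crossOf h) (C := fun i => cls ε (c i))
    (D := fun j => cls ε (d j)) e fun i => (ity_eq.1 (he i).symm).some
  exact ⟨e₂.symm.comp (e₃.comp e₁)⟩

end Pool.Agent.TH74.Martin
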