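import Pool.Agent.TH74.Martin.Trans

set_option autoImplicit false
set_option linter.unusedSectionVars false

/-!
# Martin's conjecture for sums
-/

namespace Pool.Agent.TH74.Martin

open FirstOrder FirstOrder.Language

variable {L : FirstOrder.Language.{0, 0}}

/-! ### Formulas -/

theorem exists_conjL {T : L.Theory} {n : ℕ} (k : ℕ) : ∀ F : Fin k → L1 T n, ∃ ψ : L1 T n,
    ∀ (M : Type) [L.Structure M] (a : Fin n → M), ψ.Sat a ↔ ∀ l, (F l).Sat a := by
  induction k with
  | zero =>
    intro F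
    exact ⟨.fo (.imp .falsum .falsum), fun M _ a => iff_of_true id fun l => l.elim0⟩
  | succ k ih =>
    intro F
    obtain ⟨ψ, hψ⟩ := ih fun l => F l.castSucc
    refine ⟨.and ψ (F (Fin.last k)), fun M _ a => ?_⟩
    rw [Fin.forall_fin_succ']
    exact and_congr (hψ M a) Iff.rfl

theorem exists_exL {T : L.Theory} (n : ℕ) : ∀ ψ : L1 T n, ∃ ψ' : L1 T 0,
    ∀ (M : Type) [L.Structure M], ψ'.Sat (Fin.elim0 : Fin 0 → M) ↔ ∃ a : Fin n → M, ψ.Sat a := by
  induction n with
  | zero =>
    intro ψ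
    refine ⟨ψ, fun M _ => ⟨fun h => ⟨_, h⟩, ?_⟩⟩
    rintro ⟨a, ha⟩
    have e1 : a = Fin.elim0 := Subsingleton.elim _ _
    rwa [← e1]
  | succ n ih =>
    intro ψ
    obtain ⟨ψ', hψ'⟩ := ih (.not (.all (.not ψ)))
    refine ⟨ψ', fun M _ => (hψ' M).trans ?_⟩
    have e1 : ∀ a : Fin n → M, (L1.not (.all (.not ψ))).Sat a ↔ ∃ x, ψ.Sat (sn a x) := by
      intro a
      change ¬ (∀ x, ¬ ψ.Sat (sn a x)) ↔ _
      rw [not_forall_not]
    simp only [e1]
    constructor
    · rintro ⟨a, x, h⟩
      exact ⟨_, h⟩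
    · rintro ⟨b, hb⟩
      refine ⟨fun l => b l.castSucc, b (Fin.last n), ?_⟩
      have e2 : sn (fun l => b l.castSucc) (b (Fin.last n)) = b := by
        funext j
        refine Fin.lastCases ?_ (fun j => ?_) j
        · rw [sn_last]
        · rw [sn_castSucc]
      rw [e2]
      exact hb

/-! ### Isomorphism types -/

/-- bundled structures -/
structure Str (L : FirstOrder.Language.{0, 0}) : Type 1 where
  /-- the universe -/
  M : Type
  /-- the structure -/
  str : L.Structure M

attribute [instance] Str.str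

/-- isomorphism -/
def isoSetoid (L : FirstOrder.Language.{0, 0}) : Setoid (Str L) :=
  ⟨fun X Y => Nonempty (X.M ≃[L] Y.M), ⟨fun _ => ⟨FirstOrder.Language.Equiv.refl L _⟩,
    fun ⟨f⟩ => ⟨f.symm⟩, fun ⟨f⟩ ⟨g⟩ => ⟨g.comp f⟩⟩⟩

/-- the isomorphism type -/
def ity (X : Type) [str : L.Structure X] : Quotient (isoSetoid L) := Quotient.mk _ ⟨X, str⟩

theorem ity_eq {X Y : Type} [L.Structure X] [L.Structure Y] :
    ity (L := L) X = ity (L := L) Y ↔ Nonempty (X ≃[L] Y) := by
  unfold ity
  rw [Quotient.eq]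
  exact Iff.rfl

/-! ### Replacing classes -/

section

variable {A B : Type} {P : A → Type} {Q : B → Type}

instance elimStr [∀ a, L.Structure (P a)] [∀ b, L.Structure (Q b)] :
    ∀ s : A ⊕ B, L.Structure (Sum.elim P Q s)
  | .inl a => inferInstanceAs (L.Structure (P a))
  | .inr b => inferInstanceAs (L.Structure (Q b))

instance elimNonempty [∀ a, Nonempty (P a)] [∀ b, Nonempty (Q b)] :
    ∀ s : A ⊕ B, Nonempty (Sum.elim P Q s)
  | .inl a => inferInstanceAs (Nonempty (P a))
  | .inr b => inferInstanceAs (Nonempty (Q b))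

instance elimCountable [∀ a, Countable (P a)] [∀ b, Countable (Q b)] :
    ∀ s : A ⊕ B, Countable (Sum.elim P Q s)
  | .inl a => inferInstanceAs (Countable (P a))
  | .inr b => inferInstanceAs (Countable (Q b))

end

variable [L.IsRelational] [IsEmpty (L.Relations 0)]

/-- separation of an isomorphism type from finitely many others -/
theorem exists_sep {X : Type} [L.Structure X] [Nonempty X] [Countable X]
    (hm : MartinFor (L.completeTheory X)) (hf : Few (L.completeTheory X))
    {Q : Set (Quotient (isoSetoid L))} (hQ : Q.Finite) :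
    ∃ θ : L1 (L.completeTheory X) 0, θ.Sat (Fin.elim0 : Fin 0 → X) ∧
      ∀ (Y : Type) [L.Structure Y] [Nonempty Y] [Countable Y], ity (L := L) Y ∈ Q →
        θ.Sat (Fin.elim0 : Fin 0 → Y) → Nonempty (X ≃[L] Y) := by
  induction Q, hQ using Set.Finite.induction_on with
  | empty => exact ⟨.fo (.imp .falsum .falsum), id, fun Y _ _ _ h => absurd h (Set.notMem_empty _)⟩
  | @insert t Q _ _ ih =>
    obtain ⟨θ, h1, h2⟩ := ih
    by_cases ht : ∃ (Y : Type) (_ : L.Structure Y) (_ : Nonempty Y) (_ : Countable Y),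
        ity (L := L) Y = t ∧ ¬ Nonempty (X ≃[L] Y)
    · obtain ⟨Y, i1, i2, i3, hY, hXY⟩ := ht
      have h3 : ∃ φ : L1 (L.completeTheory X) 0, φ.Sat (Fin.elim0 : Fin 0 → X) ∧
          ¬ φ.Sat (Fin.elim0 : Fin 0 → Y) := by
        by_contra hcon
        refine hXY (hm hf X Y inferInstance fun φ hφ => ?_)
        by_contra h4
        exact hcon ⟨φ, hφ, h4⟩
      obtain ⟨φ, hφ1, hφ2⟩ := h3
      refine ⟨.and θ φ, ⟨h1, hφ1⟩, fun Z _ _ _ hZ hθ => ?_⟩
      rcases hZ with hZ | hZ
      · rw [← hY, ity_eq] at hZ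
        obtain ⟨f⟩ := hZ
        refine absurd ?_ hφ2
        have h4 := (L1.sat_iso f φ Fin.elim0).2 hθ.2
        have e1 : (f ∘ Fin.elim0 : Fin 0 → Y) = Fin.elim0 := Subsingleton.elim _ _
        rwa [e1] at h4
      · exact h2 Z hZ hθ.1
    · refine ⟨θ, h1, fun Z _ _ _ hZ hθ => ?_⟩
      rcases hZ with hZ | hZ
      · by_contra h3
        exact ht ⟨Z, inferInstance, inferInstance, inferInstance, hZ, h3⟩
      · exact h2 Z hZ hθ

theorem model_of_sameCount {T : L.Theory} {ε : L.BoundedFormula Empty 2} (h : IsSum T ε)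
    {I J : Type} {C : I → Type} {D : J → Type} [∀ i, L.Structure (C i)]
    [∀ j, L.Structure (D j)] (hc : SameCount L C D) (hM : Sm (crossOf h) C ⊨ T) :
    Sm (crossOf h) D ⊨ T := by
  refine ⟨fun {σ} hσ => ?_⟩
  have h1 : EEq L (Fin.elim0 : Fin 0 → Sm (crossOf h) C) (Fin.elim0 : Fin 0 → Sm (crossOf h) D) :=
    eeq_sum (finDep_crossOf h) hc (fun j => j.elim0) fun m s i v i' w hm _ _ =>
      (s ⟨0, hm⟩).elim0
  have h2 := h1 σ
  rw [tr_sentence, tr_sentence] at h2
  exact h2.1 (hM.realize_of_mem σ hσ)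

theorem sameCount_of_equiv {I J : Type} {C : I → Type} {D : J → Type} [∀ i, L.Structure (C i)]
    [∀ j, L.Structure (D j)] (e : I ≃ J) (h : ∀ i (σ : L.Sentence), C i ⊨ σ ↔ D (e i) ⊨ σ) :
    SameCount L C D := by
  intro σ k
  constructor
  · rintro ⟨f, hf, h1⟩
    refine ⟨e ∘ f, e.injective.comp hf, fun l => ?_⟩
    have h2 := h1 l
    rw [tr_sentence] at h2 ⊢
    exact (h _ σ).1 h2
  · rintro ⟨f, hf, h1⟩
    refine ⟨e.symm ∘ f, e.symm.injective.comp hf, fun l => ?_⟩
    have h2 := h1 l
    rw [tr_sentence] at h2 ⊢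
    have h3 := h (e.symm (f l)) σ
    rw [Equiv.apply_symm_apply] at h3
    exact h3.2 h2

/-- the family in which the classes with theory `Th(X)` are replaced -/
abbrev repl (L : FirstOrder.Language.{0, 0}) {I A : Type} (C : I → Type)
    [∀ i, L.Structure (C i)] (X : Type) [L.Structure X]
    (P : A → Type) : A ⊕ {i // ¬ C i ⊨ L.completeTheory X} → Type :=
  Sum.elim P fun i : {i // ¬ C i ⊨ L.completeTheory X} => C i.1

theorem sameCount_repl {I A : Type} {C : I → Type} [∀ i, L.Structure (C i)] {X : Type}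
    [L.Structure X] {P : A → Type} [∀ a, L.Structure (P a)]
    (e : {i // C i ⊨ L.completeTheory X} ≃ A) (hP : ∀ a, P a ⊨ L.completeTheory X) :
    SameCount L C (repl L C X P) := by
  classical
  refine sameCount_of_equiv
    ((Equiv.sumCompl fun i => C i ⊨ L.completeTheory X).symm.trans
      (Equiv.sumCongr e (Equiv.refl _))) fun i σ => ?_
  by_cases hi : C i ⊨ L.completeTheory X
  · have e1 : ((Equiv.sumCompl fun i => C i ⊨ L.completeTheory X).symm.trans
      (Equiv.sumCongr e (Equiv.refl _))) i = Sum.inl (e ⟨i, hi⟩) := by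
      rw [Equiv.trans_apply, Equiv.sumCompl_symm_apply_of_pos (p := fun i => C i ⊨ L.completeTheory X) hi]
      rfl
    rw [e1]
    exact (th_iff.1 hi σ).symm.trans (th_iff.1 (hP (e ⟨i, hi⟩)) σ)
  · have e1 : ((Equiv.sumCompl fun i => C i ⊨ L.completeTheory X).symm.trans
      (Equiv.sumCongr e (Equiv.refl _))) i = Sum.inr ⟨i, hi⟩ := by
      rw [Equiv.trans_apply, Equiv.sumCompl_symm_apply_of_neg (p := fun i => C i ⊨ L.completeTheory X) hi]
      rfl
    rw [e1]
    exact Iff.rfl

theorem th_of_iso {X Y Z : Type} [L.Structure X] [L.Structure Y] [L.Structure Z]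
    (f : Nonempty (Y ≃[L] Z)) (hY : Y ⊨ L.completeTheory X) : Z ⊨ L.completeTheory X := by
  obtain ⟨f⟩ := f
  rw [th_iff] at hY ⊢
  exact fun σ => (hY σ).trans (StrongHomClass.realize_sentence f σ)

section

variable {T : L.Theory} {ε : L.BoundedFormula Empty 2} (h : IsSum T ε) {I : Type}
  {C : I → Type} [∀ i, L.Structure (C i)] [Nonempty I] [Countable I] [∀ i, Nonempty (C i)]
  [∀ i, Countable (C i)]

/-- the theories of the classes have few countable models -/
theorem few_class (hC : Dfs (crossOf h) ε C) (hM : Sm (crossOf h) C ⊨ T) (hfew : Few T) (i₀ : I) :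
    Few (L.completeTheory (C i₀)) := by
  rintro ⟨D, str, hD, hiso⟩
  have j1 : ∀ x, Nonempty (D x) := fun x => (hD x).1
  have j2 : ∀ x, Countable (D x) := fun x => (hD x).2.1
  have h0 : C i₀ ⊨ L.completeTheory (C i₀) := th_iff.2 fun σ => Iff.rfl
  have hfull : ∀ x, Dfs (crossOf h) ε (repl L C (C i₀)
      (fun _ : {i // C i ⊨ L.completeTheory (C i₀)} => D x)) := fun x =>
    dfs_of_sameCount (finDep_crossOf h)
      (sameCount_repl (Equiv.refl _) fun _ => (hD x).2.2) hC
  refine hfew ⟨fun x => Sm (crossOf h) (repl L C (C i₀)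
    (fun _ : {i // C i ⊨ L.completeTheory (C i₀)} => D x)), fun x => inferInstance,
    fun x => ?_, fun x y hxy => ?_⟩
  · have : Nonempty ({i // C i ⊨ L.completeTheory (C i₀)} ⊕
      {i // ¬ C i ⊨ L.completeTheory (C i₀)}) := ⟨Sum.inl ⟨i₀, h0⟩⟩
    exact ⟨inferInstance, inferInstance, model_of_sameCount h
      (sameCount_repl (Equiv.refl _) fun _ => (hD x).2.2) hM⟩
  · obtain ⟨f⟩ := hxy
    obtain ⟨e, he⟩ := iso_sum (hfull x) (hfull y) f
    have h1 := he (Sum.inl ⟨i₀, h0⟩)
    generalize e (Sum.inl ⟨i₀, h0⟩) = s at h1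
    rcases s with a | b
    · exact hiso x y h1
    · exact absurd (th_of_iso (Y := D x) (Z := C b.1) h1 (hD x).2.2) b.2

/-- there are only finitely many isomorphism types of classes with a given theory -/
theorem finite_types (hC : Dfs (crossOf h) ε C) (hM : Sm (crossOf h) C ⊨ T) (hfew : Few T)
    {X : Type} [L.Structure X] :
    {t | ∃ i, C i ⊨ L.completeTheory X ∧ ity (L := L) (C i) = t}.Finite := by
  by_contra hinf
  let ι := Set.Infinite.natEmbedding _ hinf
  choose d hd1 hd2 using fun n : ℕ => (ι n).2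
  have hd : ∀ n m, Nonempty (C (d n) ≃[L] C (d m)) → n = m := by
    intro n m hnm
    rw [← ity_eq, hd2, hd2] at hnm
    exact ι.injective (Subtype.ext hnm)
  have hdX : ∀ (x : ℕ → Bool) (p : {p : ℕ × Bool // p.2 = true → x p.1 = true}),
      C (d p.1.1) ⊨ L.completeTheory X := fun x p => hd1 _
  have he : ∀ x : ℕ → Bool, Nonempty ({i // C i ⊨ L.completeTheory X} ≃
      {p : ℕ × Bool // p.2 = true → x p.1 = true}) := by
    intro x
    have i1 : Infinite {i // C i ⊨ L.completeTheory X} :=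
      Infinite.of_injective (fun n : ℕ => (⟨d n, hd1 n⟩ : {i // C i ⊨ L.completeTheory X}))
        fun n m hnm => hd n m (by
          have h1 : d n = d m := congrArg Subtype.val hnm
          rw [h1]
          exact ⟨FirstOrder.Language.Equiv.refl L _⟩)
    have i2 : Infinite {p : ℕ × Bool // p.2 = true → x p.1 = true} :=
      Infinite.of_injective (fun n : ℕ => ⟨(n, false), fun h => absurd h (by simp)⟩)
        fun n m hnm => congrArg (fun p => p.1.1) hnm
    exact nonempty_equiv_of_countable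
  have hfull : ∀ x : ℕ → Bool, Dfs (crossOf h) ε (repl L C X
      (fun p : {p : ℕ × Bool // p.2 = true → x p.1 = true} => C (d p.1.1))) := by
    intro x
    obtain ⟨e⟩ := he x
    exact dfs_of_sameCount (finDep_crossOf h) (sameCount_repl e (hdX x)) hC
  refine hfew ⟨fun x : ℕ → Bool => Sm (crossOf h) (repl L C X
    (fun p : {p : ℕ × Bool // p.2 = true → x p.1 = true} => C (d p.1.1))), fun x => inferInstance,
    fun x => ?_, fun x y hxy => ?_⟩
  · have : Nonempty ({p : ℕ × Bool // p.2 = true → x p.1 = true} ⊕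
      {i // ¬ C i ⊨ L.completeTheory X}) :=
      ⟨Sum.inl ⟨(0, false), fun h => absurd h (by simp)⟩⟩
    obtain ⟨e⟩ := he x
    exact ⟨inferInstance, inferInstance, model_of_sameCount h (sameCount_repl e (hdX x)) hM⟩
  · have key : ∀ x y : ℕ → Bool, Nonempty (Sm (crossOf h) (repl L C X
        (fun p : {p : ℕ × Bool // p.2 = true → x p.1 = true} => C (d p.1.1))) ≃[L]
        Sm (crossOf h) (repl L C X
        (fun p : {p : ℕ × Bool // p.2 = true → y p.1 = true} => C (d p.1.1)))) →
        ∀ n, x n = true → y n = true := by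
      intro x y hxy n hn
      by_contra hyn
      obtain ⟨f⟩ := hxy
      obtain ⟨e, he⟩ := iso_sum (hfull x) (hfull y) f
      have h1 : ∀ b : Bool, e (Sum.inl ⟨(n, b), fun _ => hn⟩) =
          Sum.inl ⟨(n, false), fun h => absurd h (by simp)⟩ := by
        intro b
        have h2 := he (Sum.inl ⟨(n, b), fun _ => hn⟩)
        generalize e (Sum.inl ⟨(n, b), fun _ => hn⟩) = s at h2
        rcases s with ⟨⟨m, c⟩, hmc⟩ | b
        · obtain rfl := hd n m h2
          cases c with
          | false => rfl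
          | true => exact absurd (hmc rfl) hyn
        · exact absurd (th_of_iso (Y := C (d n)) (Z := C b.1) h2 (hd1 n)) b.2
      have h2 := e.injective ((h1 false).trans (h1 true).symm)
      have h3 := Sum.inl_injective h2
      have h4 : false = true := congrArg (fun p => p.1.2) h3
      exact absurd h4 (by simp)
    funext n
    have h1 := key x y hxy n
    have h2 := key y x (by
      obtain ⟨f⟩ := hxy
      exact ⟨f.symm⟩) n
    rw [Bool.eq_iff_iff]
    exact ⟨h1, h2⟩

end

end Pool.Agent.TH74.Martin
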