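import Pool.Agent.TH74.Martin.Sum
import Pool.Agent.TH74.Martin.Defs

set_option autoImplicit false
set_option linter.unusedSectionVars false

/-!
# Relativised formulas, and the numbers of classes
-/

namespace Pool.Agent.TH74.Martin

open FirstOrder FirstOrder.Language

variable {L : FirstOrder.Language.{0, 0}}

/-- sentences -/
theorem tr_sentence {M : Type} [L.Structure M] (σ : L.Sentence) :
    Tr σ (Fin.elim0 : Fin 0 → M) ↔ M ⊨ σ := by
  have e1 : (Empty.elim : Empty → M) = default := Subsingleton.elim _ _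
  have e2 : (Fin.elim0 : Fin 0 → M) = default := Subsingleton.elim _ _
  unfold Tr
  rw [e1, e2]
  exact Iff.rfl

variable [L.IsRelational] {δ : Cross L} {I J : Type} {C : I → Type} {D : J → Type}
  [∀ i, L.Structure (C i)] [∀ j, L.Structure (D j)] {ε : L.BoundedFormula Empty 2}

/-- the formula `ε` defines the partition into summands -/
def Dfs (δ : Cross L) (ε : L.BoundedFormula Empty 2) {I : Type} (C : I → Type)
    [∀ i, L.Structure (C i)] : Prop :=
  ∀ x y : Sm δ C, Tr ε ![x, y] ↔ x.1 = y.1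

theorem dfs_of_sameCount [IsEmpty (L.Relations 0)]
    {Φ : ∀ n : ℕ, L.Relations n → Set (L.BoundedFormula Empty n)} (hU : FinDep δ Φ)
    (hc : SameCount L C D) (hC : Dfs δ ε C) : Dfs δ ε D := by
  intro x y
  obtain ⟨x', y', h1, h2⟩ := exists_pair (C := D) (D := C) hU hc.symm ε x y
  rw [h1, h2]
  exact hC x' y'

/-- the term with the variables shifted by `m` -/
def shift (m : ℕ) {n : ℕ} (t : L.Term (Empty ⊕ Fin n)) : L.Term (Empty ⊕ Fin (m + n)) :=
  t.relabel (Sum.map id (Fin.natAdd m))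

/-- the formula relativised to the class of `x_x` -/
noncomputable def rl (ε : L.BoundedFormula Empty 2) {m : ℕ} (x : Fin m) :
    ∀ {n : ℕ}, L.BoundedFormula Empty n → L.BoundedFormula Empty (m + n)
  | _, .falsum => .falsum
  | _, .equal t₁ t₂ => .equal (shift m t₁) (shift m t₂)
  | _, .rel R ts => .rel R fun i => shift m (ts i)
  | _, .imp φ ψ => .imp (rl ε x φ) (rl ε x ψ)
  | n, .all φ => .all (.imp (sub ε ![(Fin.castAdd n x).castSucc, Fin.last (m + n)]) (rl ε x φ))

theorem snoc_natAdd {X Y : Type} {m n : ℕ} (f : Y → X) (z : Fin (m + n) → X) (v : Fin n → Y)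
    (hz : ∀ k, z (Fin.natAdd m k) = f (v k)) (a : Y) (k : Fin (n + 1)) :
    sn z (f a) (Fin.natAdd m k : Fin (m + (n + 1))) = f (sn v a k) := by
  refine Fin.lastCases ?_ (fun k => ?_) k
  · rw [sn_last]
    have e1 : (Fin.natAdd m (Fin.last n) : Fin (m + (n + 1))) = Fin.last (m + n) := rfl
    rw [e1, sn_last]
  · rw [sn_castSucc]
    have e1 : (Fin.natAdd m k.castSucc : Fin (m + (n + 1))) = (Fin.natAdd m k).castSucc := rfl
    rw [e1, sn_castSucc, hz]

theorem snoc_castAdd {X : Type} {m n : ℕ} (z : Fin (m + n) → X) (a : X) (x : Fin m) :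
    sn z a (Fin.castAdd (n + 1) x : Fin (m + (n + 1))) = z (Fin.castAdd n x) := by
  have e1 : (Fin.castAdd (n + 1) x : Fin (m + (n + 1))) = (Fin.castAdd n x).castSucc := rfl
  rw [e1, sn_castSucc]

theorem exists_var {m : ℕ} (t : L.Term (Empty ⊕ Fin m)) : ∃ j, t = Term.var (Sum.inr j) := by
  cases t with
  | var x =>
    cases x with
    | inl x => exact x.elim
    | inr j => exact ⟨j, rfl⟩
  | func f _ => exact isEmptyElim f

theorem pos_of_rel [IsEmpty (L.Relations 0)] {n : ℕ} (R : L.Relations n) : 0 < n := by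
  cases n with
  | zero => exact isEmptyElim R
  | succ n => exact Nat.succ_pos n

theorem comp_pair {X Y : Type} (f : X → Y) (a b : X) : f ∘ ![a, b] = ![f a, f b] := by
  funext j
  fin_cases j
  · rfl
  · rfl

/-- being in the class of the variable `x` -/
theorem tr_inClass (hC : Dfs δ ε C) {m n : ℕ} (x : Fin m) (z : Fin (m + n) → Sm δ C)
    (y : Sm δ C) : Tr (sub ε ![(Fin.castAdd n x).castSucc, Fin.last (m + n)]) (sn z y) ↔
      (z (Fin.castAdd n x)).1 = y.1 := by
  rw [tr_sub, comp_pair, sn_castSucc, sn_last]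
  exact hC _ _

/-- **Relativisation.** -/
theorem tr_rl [IsEmpty (L.Relations 0)] (hC : Dfs δ ε C) {m : ℕ} (x : Fin m) {i : I} {n : ℕ}
    (φ : L.BoundedFormula Empty n) : ∀ (z : Fin (m + n) → Sm δ C) (v : Fin n → C i),
      (∀ k, z (Fin.natAdd m k) = inn δ i (v k)) → (z (Fin.castAdd n x)).1 = i →
        (Tr (rl ε x φ) z ↔ Tr φ v) := by
  induction φ with
  | falsum => exact fun z v _ _ => Iff.rfl
  | @equal n t₁ t₂ =>
    intro z v hz _
    obtain ⟨j, rfl⟩ := exists_var t₁
    obtain ⟨k, rfl⟩ := exists_var t₂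
    change z (Fin.natAdd m j) = z (Fin.natAdd m k) ↔ v j = v k
    rw [hz, hz]
    exact ⟨fun h => inn_inj h, fun h => by rw [h]⟩
  | @rel n l R ts =>
    intro z v hz _
    choose s hs using fun i => exists_var (ts i)
    obtain rfl : ts = fun i => Term.var (Sum.inr (s i)) := funext hs
    change Structure.RelMap R (fun i => z (Fin.natAdd m (s i))) ↔
      Structure.RelMap R fun i => v (s i)
    have e1 : (fun i => z (Fin.natAdd m (s i))) = fun l => inn δ i (v (s l)) :=
      funext fun l => hz (s l)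
    rw [e1]
    exact relMap_in (pos_of_rel R) R i fun l => v (s l)
  | imp φ ψ ih1 ih2 =>
    intro z v hz hx
    exact imp_congr (ih1 z v hz hx) (ih2 z v hz hx)
  | @all n φ ih =>
    intro z v hz hx
    change (∀ y : Sm δ C, Tr (sub ε ![(Fin.castAdd n x).castSucc, Fin.last (m + n)]) (sn z y) →
      Tr (rl ε x φ) (sn z y)) ↔ ∀ a : C i, Tr φ (sn v a)
    constructor
    · intro h a
      refine (ih (sn z (inn δ i a)) (sn v a) (snoc_natAdd (inn δ i) z v hz a) ?_).1
        (h (inn δ i a) ((tr_inClass hC x z _).2 hx))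
      rw [snoc_castAdd]
      exact hx
    · intro h y hy
      obtain ⟨a, rfl⟩ := eq_inn y ((((tr_inClass hC x z y).1 hy).symm.trans hx : y.1 = i))
      refine (ih (sn z (inn δ i a)) (sn v a) (snoc_natAdd (inn δ i) z v hz a) ?_).2 (h a)
      rw [snoc_castAdd]
      exact hx

/-- tuples in a class with the same type in the sum have the same type in the class -/
theorem eeq_of_inn [IsEmpty (L.Relations 0)] (hC : Dfs δ ε C) (hD : Dfs δ ε D) {n : ℕ}
    (hn : 0 < n) {i : I} {j : J} {v : Fin n → C i} {w : Fin n → D j}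
    (h : EEq L (fun k => inn δ i (v k)) fun k => inn δ j (w k)) : EEq L v w := by
  intro φ
  have h1 := h.comp inferInstance (m := 1 + n)
    (Fin.addCases (fun _ => ⟨0, hn⟩) fun k => k) (rl ε (0 : Fin 1) φ)
  rw [tr_rl hC 0 φ _ v, tr_rl hD 0 φ _ w] at h1
  · exact h1
  · intro k
    rw [Function.comp_apply, Fin.addCases_right]
  · rw [Function.comp_apply, Fin.addCases_left]
    rfl
  · intro k
    rw [Function.comp_apply, Fin.addCases_right]
  · rw [Function.comp_apply, Fin.addCases_left]
    rfl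

/-- there are `k` classes satisfying `σ` -/
noncomputable def cnt (ε : L.BoundedFormula Empty 2) (σ : L.BoundedFormula Empty 0) (k : ℕ) :
    L.BoundedFormula Empty 0 :=
  BoundedFormula.exs (BoundedFormula.iInf fun p : Fin k × Fin k =>
    (if p.1 = p.2 then (⊤ : L.BoundedFormula Empty k) else (sub ε ![p.1, p.2]).not) ⊓ rl ε p.1 σ)

theorem tr_cnt [IsEmpty (L.Relations 0)] (hC : Dfs δ ε C) [∀ i, Nonempty (C i)]
    (σ : L.BoundedFormula Empty 0) (k : ℕ) :
    Tr (cnt ε σ k) (Fin.elim0 : Fin 0 → Sm δ C) ↔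
      ∃ f : Fin k → I, Function.Injective f ∧ ∀ l, Tr σ (Fin.elim0 : Fin 0 → C (f l)) := by
  have h0 : Tr (cnt ε σ k) (Fin.elim0 : Fin 0 → Sm δ C) ↔
      ∃ z : Fin k → Sm δ C, (∀ p : Fin k × Fin k, (p.1 = p.2 ∨ (z p.1).1 ≠ (z p.2).1) ∧
        Tr σ (Fin.elim0 : Fin 0 → C (z p.1).1)) := by
    have e2 : (Fin.elim0 : Fin 0 → Sm δ C) = default := Subsingleton.elim _ _
    unfold Tr cnt
    rw [e2]
    refine (BoundedFormula.realize_exs (v := (Empty.elim : Empty → Sm δ C))).trans ?_
    refine exists_congr fun z => ?_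
    rw [BoundedFormula.realize_iInf]
    refine forall_congr' fun p => ?_
    rw [BoundedFormula.realize_inf]
    refine and_congr ?_ ?_
    · by_cases hp : p.1 = p.2
      · simp [hp]
      · rw [if_neg hp, BoundedFormula.realize_not]
        have e3 := tr_sub ε ![p.1, p.2] z
        rw [comp_pair] at e3
        have e4 := e3.trans (hC _ _)
        unfold Tr at e4
        rw [e4]
        constructor
        · intro h
          exact Or.inr h
        · rintro (h | h)
          · exact absurd h hp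
          · exact h
    · exact tr_rl hC p.1 σ z (Fin.elim0 : Fin 0 → C (z p.1).1) (fun k => k.elim0) rfl
  rw [h0]
  constructor
  · rintro ⟨z, hz⟩
    refine ⟨fun l => (z l).1, fun l l' h => ?_, fun l => (hz (l, l)).2⟩
    rcases (hz (l, l')).1 with h1 | h1
    · exact h1
    · exact absurd h h1
  · rintro ⟨f, hf, h⟩
    refine ⟨fun l => inn δ (f l) (Classical.arbitrary (C (f l))), fun p => ⟨?_, h p.1⟩⟩
    by_cases hp : p.1 = p.2
    · exact Or.inl hp
    · exact Or.inr fun h1 => hp (hf h1)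

/-- In two sums with the same sentences the numbers of classes are the same. -/
theorem sameCount_of [IsEmpty (L.Relations 0)] (hC : Dfs δ ε C) (hD : Dfs δ ε D)
    [∀ i, Nonempty (C i)] [∀ j, Nonempty (D j)]
    (h : ∀ σ : L.Sentence, (Sm δ C) ⊨ σ ↔ (Sm δ D) ⊨ σ) : SameCount L C D := by
  intro σ k
  rw [← tr_cnt (δ := δ) hC, ← tr_cnt (δ := δ) hD, tr_sentence, tr_sentence]
  exact h _

end Pool.Agent.TH74.Martin
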