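import Pool.Agent.TH74.Martin.BF
import Mathlib.Tactic.FinCases

set_option autoImplicit false
set_option linter.unusedSectionVars false

/-!
# Sums of families of structures, and their elementary equivalence
-/

namespace Pool.Agent.TH74.Martin

open FirstOrder FirstOrder.Language

variable {L : FirstOrder.Language.{0, 0}}

/-- A rule for the tuples that meet several classes: the truth value of a symbol at such a tuple is
given by the pattern of the tuple and by the formulas which hold inside the classes. -/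
abbrev Cross (L : FirstOrder.Language.{0, 0}) : Type :=
  ∀ n : ℕ, L.Relations n → (Fin n → Fin n → Prop) →
    ((Fin n → Fin n) → L.BoundedFormula Empty n → Prop) → Prop

/-- the disjoint union of a family of structures -/
def Sm (_δ : Cross L) {I : Type} (C : I → Type) : Type := Σ i, C i

/-- an element of a summand, as an element of the sum -/
def inn (δ : Cross L) {I : Type} {C : I → Type} (i : I) (a : C i) : Sm δ C := ⟨i, a⟩

/-- the formulas which hold of the subtuples inside the classes -/
def ld {δ : Cross L} {I : Type} {C : I → Type} [∀ i, L.Structure (C i)] {n : ℕ}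
    (t : Fin n → Sm δ C) (s : Fin n → Fin n) (φ : L.BoundedFormula Empty n) : Prop :=
  ∃ (i : I) (v : Fin n → C i), (∀ l, t (s l) = inn δ i (v l)) ∧ Tr φ v

variable [L.IsRelational] {δ : Cross L} {I J : Type} {C : I → Type} {D : J → Type}

instance [∀ i, L.Structure (C i)] : L.Structure (Sm δ C) where
  funMap := fun f => isEmptyElim f
  RelMap := fun {n} R t =>
    (∃ (i : I) (s : Fin n → C i), (∀ j, t j = ⟨i, s j⟩) ∧ Structure.RelMap R s) ∨
      ((∃ j k, (t j).1 ≠ (t k).1) ∧ δ n R (fun j k => (t j).1 = (t k).1)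
        (ld t))

theorem inn_inj {i : I} {a b : C i} (h : inn δ i a = inn δ i b) : a = b := by
  have h1 : HEq a b := (Sigma.mk.inj_iff.1 h).2
  exact eq_of_heq h1

theorem inn_fst {i : I} (a : C i) : (inn δ i a).1 = i := rfl

theorem eq_inn {i : I} (x : Sm δ C) (h : x.1 = i) : ∃ a : C i, x = inn δ i a := by
  subst h
  exact ⟨x.2, rfl⟩

variable [∀ i, L.Structure (C i)] [∀ j, L.Structure (D j)]

theorem relMap_in {n : ℕ} (hn : 0 < n) (R : L.Relations n) (i : I) (s : Fin n → C i) :
    Structure.RelMap R (fun j => inn δ i (s j)) ↔ Structure.RelMap R s := by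
  constructor
  · rintro (⟨i', s', h1, h2⟩ | ⟨⟨j, k, h⟩, -⟩)
    · obtain rfl : i = i' := congrArg Sigma.fst (h1 ⟨0, hn⟩)
      have : s = s' := funext fun j => inn_inj (h1 j)
      rw [this]
      exact h2
    · exact absurd rfl h
  · intro h
    exact Or.inl ⟨i, s, fun _ => rfl, h⟩

theorem relMap_out {n : ℕ} (R : L.Relations n) (t : Fin n → Sm δ C)
    (h : ∃ j k, (t j).1 ≠ (t k).1) :
    Structure.RelMap R t ↔ δ n R (fun j k => (t j).1 = (t k).1) (ld t) := by
  constructor
  · rintro (⟨i, s, h1, -⟩ | ⟨-, h2⟩)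
    · obtain ⟨j, k, hjk⟩ := h
      exact absurd (by rw [h1 j, h1 k]) hjk
    · exact h2
  · intro h2
    exact Or.inr ⟨h, h2⟩

/-- the same pattern, and equivalence of rank `r` inside the classes -/
def LE (F : Set (Σ n : ℕ, L.Relations n)) (r : ℕ) {n : ℕ} (xs : Fin n → Sm δ C)
    (ys : Fin n → Sm δ D) : Prop :=
  (∀ j k, (xs j).1 = (xs k).1 ↔ (ys j).1 = (ys k).1) ∧
    ∀ (m : ℕ) (s : Fin m → Fin n) (i : I) (v : Fin m → C i) (i' : J) (w : Fin m → D i'), 0 < m →
      (∀ l, xs (s l) = inn δ i (v l)) → (∀ l, ys (s l) = inn δ i' (w l)) → BF F r v w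

/-- the same numbers of classes satisfying any given sentence -/
def SameCount (L : FirstOrder.Language.{0, 0}) {I J : Type} (C : I → Type) (D : J → Type)
    [∀ i, L.Structure (C i)] [∀ j, L.Structure (D j)] : Prop :=
  ∀ (σ : L.BoundedFormula Empty 0) (k : ℕ),
    (∃ f : Fin k → I, Function.Injective f ∧ ∀ l, Tr σ (Fin.elim0 : Fin 0 → C (f l))) ↔
    ∃ f : Fin k → J, Function.Injective f ∧ ∀ l, Tr σ (Fin.elim0 : Fin 0 → D (f l))

theorem SameCount.symm (h : SameCount L C D) : SameCount L D C := fun σ k => (h σ k).symm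

theorem LE.symm {F : Set (Σ n : ℕ, L.Relations n)} {r n : ℕ} {xs : Fin n → Sm δ C}
    {ys : Fin n → Sm δ D} (h : LE F r xs ys) : LE F r ys xs :=
  ⟨fun j k => (h.1 j k).symm, fun m s i v i' w hm h1 h2 => (h.2 m s i' w i v hm h2 h1).symm⟩

theorem LE.mono_rank {F : Set (Σ n : ℕ, L.Relations n)} {r r' n : ℕ} (hr : r ≤ r')
    {xs : Fin n → Sm δ C} {ys : Fin n → Sm δ D} (h : LE F r' xs ys) : LE F r xs ys :=
  ⟨h.1, fun m s i v i' w hm h1 h2 => (h.2 m s i v i' w hm h1 h2).mono_rank hr⟩

/-- one direction of the extension of patterns -/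
theorem pattern_sn {n : ℕ} {xs : Fin n → Sm δ C} {ys : Fin n → Sm δ D}
    (h : ∀ j k, (xs j).1 = (xs k).1 ↔ (ys j).1 = (ys k).1) {a : Sm δ C} {b : Sm δ D}
    (hab : ∀ j, (xs j).1 = a.1 ↔ (ys j).1 = b.1) :
    ∀ j k, (sn xs a j).1 = (sn xs a k).1 ↔ (sn ys b j).1 = (sn ys b k).1 := by
  intro j k
  refine Fin.lastCases ?_ (fun j => ?_) j
  · refine Fin.lastCases ?_ (fun k => ?_) k
    · simp only [sn_last]
    · simp only [sn_last, sn_castSucc]
      exact ⟨fun h => ((hab k).1 h.symm).symm, fun h => ((hab k).2 h.symm).symm⟩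
  · refine Fin.lastCases ?_ (fun k => ?_) k
    · simp only [sn_last, sn_castSucc]
      exact hab j
    · simp only [sn_castSucc]
      exact h j k

/-- **Extension.** -/
theorem LE.forth {F : Set (Σ n : ℕ, L.Relations n)} (hF : F.Finite) (hc : SameCount L C D)
    {r n : ℕ} {xs : Fin n → Sm δ C} {ys : Fin n → Sm δ D} (h : LE F (r + 1) xs ys)
    (x : Sm δ C) : ∃ y : Sm δ D, LE F r (sn xs x) (sn ys y) := by
  classical
  obtain ⟨i, a, rfl⟩ : ∃ (i : I) (a : C i), x = inn δ i a := ⟨x.1, x.2, rfl⟩
  by_cases hi : ∃ j, (xs j).1 = i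
  · obtain ⟨j, hj⟩ := hi
    let s : Fin n → Fin n := fun k => if (xs k).1 = (xs j).1 then k else j
    have hs : ∀ k, (xs (s k)).1 = i := by
      intro k
      by_cases hk : (xs k).1 = (xs j).1
      · have e1 : s k = k := if_pos hk
        rw [e1, hk, hj]
      · have e1 : s k = j := if_neg hk
        rw [e1, hj]
    have hs' : ∀ k, (ys (s k)).1 = (ys j).1 := fun k => (h.1 _ _).1 ((hs k).trans hj.symm)
    choose v hv using fun k => eq_inn (xs (s k)) (hs k)
    choose w hw using fun k => eq_inn (ys (s k)) (hs' k)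
    obtain ⟨b, hb⟩ := (h.2 n s i v (ys j).1 w j.pos hv hw).2.1 a
    refine ⟨inn δ (ys j).1 b, pattern_sn h.1 (fun k => ?_), ?_⟩
    · change (xs k).1 = i ↔ (ys k).1 = (ys j).1
      rw [← h.1, hj]
    · intro m s' i1 v1 i1' w1 hm h1 h2
      by_cases hi1 : i1 = i
      · subst hi1
        have e0 : i1' = (ys j).1 := by
          have e1 := h2 ⟨0, hm⟩
          have e2 := h1 ⟨0, hm⟩
          revert e1 e2
          refine Fin.lastCases (motive := fun z => sn ys (inn δ (ys j).1 b) z =
            inn δ i1' (w1 ⟨0, hm⟩) → sn xs (inn δ i1 a) z = inn δ i1 (v1 ⟨0, hm⟩) →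
            i1' = (ys j).1) ?_ (fun z => ?_) (s' ⟨0, hm⟩)
          · intro e1 _
            rw [sn_last] at e1
            exact (congrArg Sigma.fst e1).symm
          · intro e1 e2
            rw [sn_castSucc] at e1 e2
            have e3 : (xs z).1 = (xs j).1 := by rw [e2, hj]; rfl
            rw [h.1, e1] at e3
            exact e3
        subst e0
        have e1 : v1 = sn v a ∘ s' := by
          funext l
          have e1 := h1 l
          revert e1
          simp only [Function.comp_apply]
          refine Fin.lastCases (motive := fun z => sn xs (inn δ i1 a) z = inn δ i1 (v1 l) →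
            v1 l = sn v a z) ?_ (fun z => ?_) (s' l)
          · intro e1
            rw [sn_last] at e1 ⊢
            exact (inn_inj e1).symm
          · intro e1
            rw [sn_castSucc] at e1 ⊢
            have e3 : (xs z).1 = (xs j).1 := by rw [e1, hj]; rfl
            have e4 : s z = z := if_pos e3
            have e5 := hv z
            rw [e4, e1] at e5
            exact inn_inj e5
        have e2 : w1 = sn w b ∘ s' := by
          funext l
          have e1 := h2 l
          revert e1
          simp only [Function.comp_apply]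
          refine Fin.lastCases (motive := fun z => sn ys (inn δ (ys j).1 b) z =
            inn δ (ys j).1 (w1 l) → w1 l = sn w b z) ?_ (fun z => ?_) (s' l)
          · intro e1
            rw [sn_last] at e1 ⊢
            exact (inn_inj e1).symm
          · intro e1
            rw [sn_castSucc] at e1 ⊢
            have e3 : (xs z).1 = (xs j).1 := (h.1 _ _).2 (by rw [e1]; rfl)
            have e4 : s z = z := if_pos e3
            have e5 := hw z
            rw [e4, e1] at e5
            exact inn_inj e5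
        rw [e1, e2]
        exact hb.comp s'
      · have e1 : ∀ l, ∃ z : Fin n, s' l = z.castSucc := by
          intro l
          have e1 := h1 l
          revert e1
          refine Fin.lastCases (motive := fun z => sn xs (inn δ i a) z = inn δ i1 (v1 l) →
            ∃ z' : Fin n, z = z'.castSucc) ?_ (fun z => ?_) (s' l)
          · intro e1
            rw [sn_last] at e1
            exact absurd (congrArg Sigma.fst e1).symm hi1
          · intro _
            exact ⟨z, rfl⟩
        choose s'' hs'' using e1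
        refine (h.2 m s'' i1 v1 i1' w1 hm (fun l => ?_) fun l => ?_).mono_rank (Nat.le_succ r)
        · rw [← h1 l, hs'' l, sn_castSucc]
        · rw [← h2 l, hs'' l, sn_castSucc]
  · obtain ⟨σ, hσ⟩ := exists_sentence F hF r (fun _ : Fin 1 => a)
    have key : ∃ i' : J, (∀ j, (ys j).1 ≠ i') ∧ Tr σ (Fin.elim0 : Fin 0 → D i') := by
      by_contra hcon
      have hcon' : ∀ i' : J, Tr σ (Fin.elim0 : Fin 0 → D i') → ∃ j, (ys j).1 = i' := by
        intro i' h1
        by_contra h2
        exact hcon ⟨i', fun j hj => h2 ⟨j, hj⟩, h1⟩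
      let P : Set J := {i' | Tr σ (Fin.elim0 : Fin 0 → D i')}
      have hP : P.Finite := (Set.finite_range fun j => (ys j).1).subset fun i' hi' =>
        hcon' i' hi'
      have : Finite P := hP.to_subtype
      obtain ⟨m, ⟨e⟩⟩ := Finite.exists_equiv_fin P
      choose j hj using fun l : Fin m => hcon' (e.symm l).1 (e.symm l).2
      have h1 : ∃ f : Fin (m + 1) → I, Function.Injective f ∧
          ∀ l, Tr σ (Fin.elim0 : Fin 0 → C (f l)) := by
        refine ⟨sn (fun l => (xs (j l)).1) i, ?_, fun l => ?_⟩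
        · intro l l'
          refine Fin.lastCases ?_ (fun l => ?_) l
          · refine Fin.lastCases ?_ (fun l' => ?_) l'
            · intro _
              rfl
            · intro h1
              rw [sn_last, sn_castSucc] at h1
              exact absurd ⟨_, h1.symm⟩ hi
          · refine Fin.lastCases ?_ (fun l' => ?_) l'
            · intro h1
              rw [sn_last, sn_castSucc] at h1
              exact absurd ⟨_, h1⟩ hi
            · intro h1
              rw [sn_castSucc, sn_castSucc, h.1, hj, hj] at h1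
              rw [e.symm.injective (Subtype.ext h1)]
        · refine Fin.lastCases (motive := fun l =>
            Tr σ (Fin.elim0 : Fin 0 → C (sn (fun l => (xs (j l)).1) i l))) ?_ (fun l => ?_) l
          · rw [sn_last, hσ]
            refine ⟨a, ?_⟩
            have e1 : (fun _ : Fin 1 => a) = sn Fin.elim0 a := by
              funext z
              obtain rfl : z = Fin.last 0 := Subsingleton.elim _ _
              rw [sn_last]
            rw [e1]
            exact BF.refl _ _
          · rw [sn_castSucc, hσ]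
            have h1 : Tr σ (Fin.elim0 : Fin 0 → D (e.symm l).1) := (e.symm l).2
            rw [← hj l, hσ] at h1
            obtain ⟨b, hb⟩ := h1
            have h2 := h.2 1 (fun _ => j l) (xs (j l)).1 (fun _ => (xs (j l)).2) (ys (j l)).1
              (fun _ => (ys (j l)).2) Nat.one_pos (fun _ => rfl) fun _ => rfl
            obtain ⟨c, hc⟩ := h2.2.2 b
            refine ⟨c, hb.trans ?_⟩
            have h3 := (hc.comp (fun _ : Fin 1 => Fin.last 1)).symm
            have e1 : ∀ {X : Type} (u : Fin 1 → X) (z : X),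
                sn u z ∘ (fun _ : Fin 1 => Fin.last 1) = sn Fin.elim0 z := by
              intro X u z
              funext t
              obtain rfl : t = Fin.last 0 := Subsingleton.elim _ _
              rw [Function.comp_apply, sn_last, sn_last]
            rw [e1, e1] at h3
            exact h3
      obtain ⟨f, hf1, hf2⟩ := (hc σ (m + 1)).1 h1
      have h2 : Function.Injective fun l => e ⟨f l, hf2 l⟩ := by
        intro l l' hl
        exact hf1 (congrArg Subtype.val (e.injective hl))
      have h3 := Fintype.card_le_of_injective _ h2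
      simp at h3
    obtain ⟨i', hi', h1⟩ := key
    rw [hσ] at h1
    obtain ⟨b, hb⟩ := h1
    refine ⟨inn δ i' b, pattern_sn h.1 (fun k => ?_), ?_⟩
    · exact iff_of_false (fun h => hi ⟨k, h⟩) (hi' k)
    · intro m s' i1 v1 i1' w1 hm h1 h2
      by_cases hi1 : i1 = i
      · subst hi1
        have e1 : ∀ l, s' l = Fin.last n := by
          intro l
          have e1 := h1 l
          revert e1
          refine Fin.lastCases (motive := fun z => sn xs (inn δ i1 a) z = inn δ i1 (v1 l) →
            z = Fin.last n) ?_ (fun z => ?_) (s' l)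
          · intro _
            rfl
          · intro e1
            rw [sn_castSucc] at e1
            exact absurd ⟨z, congrArg Sigma.fst e1⟩ hi
        have e2 : ∀ l, v1 l = a := by
          intro l
          have e2 := h1 l
          rw [e1 l, sn_last] at e2
          exact (inn_inj e2).symm
        have e3 : i' = i1' := by
          have e3 := h2 ⟨0, hm⟩
          rw [e1, sn_last] at e3
          exact congrArg Sigma.fst e3
        subst e3
        have e4 : ∀ l, w1 l = b := by
          intro l
          have e2 := h2 l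
          rw [e1 l, sn_last] at e2
          exact (inn_inj e2).symm
        have e5 := hb.comp (fun _ : Fin m => (0 : Fin 1))
        have e6 : v1 = (fun _ : Fin 1 => a) ∘ (fun _ : Fin m => (0 : Fin 1)) := funext e2
        have e7 : w1 = (sn Fin.elim0 b : Fin 1 → D i') ∘ (fun _ : Fin m => (0 : Fin 1)) := by
          funext l
          rw [e4 l]
          exact (sn_last _ _).symm
        rw [e6, e7]
        exact e5
      · have e1 : ∀ l, ∃ z : Fin n, s' l = z.castSucc := by
          intro l
          have e1 := h1 l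
          revert e1
          refine Fin.lastCases (motive := fun z => sn xs (inn δ i a) z = inn δ i1 (v1 l) →
            ∃ z' : Fin n, z = z'.castSucc) ?_ (fun z => ?_) (s' l)
          · intro e1
            rw [sn_last] at e1
            exact absurd (congrArg Sigma.fst e1).symm hi1
          · intro _
            exact ⟨z, rfl⟩
        choose s'' hs'' using e1
        refine (h.2 m s'' i1 v1 i1' w1 hm (fun l => ?_) fun l => ?_).mono_rank (Nat.le_succ r)
        · rw [← h1 l, hs'' l, sn_castSucc]
        · rw [← h2 l, hs'' l, sn_castSucc]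

/-- The rule depends on finitely many formulas for every symbol. -/
structure FinDep (δ : Cross L) (Φ : ∀ n : ℕ, L.Relations n → Set (L.BoundedFormula Empty n)) :
    Prop where
  fin : ∀ (n : ℕ) (R : L.Relations n), (Φ n R).Finite
  dep : ∀ (n : ℕ) (R : L.Relations n) (π : Fin n → Fin n → Prop)
    (c c' : (Fin n → Fin n) → L.BoundedFormula Empty n → Prop),
      (∀ φ ∈ Φ n R, ∀ s, c s φ ↔ c' s φ) → (δ n R π c ↔ δ n R π c')

/-- Finitely many formulas are decided by the equivalence of some finite rank. -/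
theorem exists_rank_fin (A : Set (Σ n : ℕ, L.BoundedFormula Empty n)) (hA : A.Finite) :
    ∃ (F : Set (Σ n : ℕ, L.Relations n)) (r : ℕ), F.Finite ∧ ∀ φ ∈ A,
      ∀ (M N : Type) [L.Structure M] [L.Structure N] (v : Fin φ.1 → M) (w : Fin φ.1 → N),
        BF F r v w → (Tr φ.2 v ↔ Tr φ.2 w) := by
  induction A, hA using Set.Finite.induction_on with
  | empty => exact ⟨∅, 0, Set.finite_empty, fun φ hφ => absurd hφ (Set.notMem_empty _)⟩
  | @insert φ A _ _ ih =>
    obtain ⟨F, r, hF, h⟩ := ih
    obtain ⟨F', r', hF', h'⟩ := exists_rank (L := L) inferInstance φ.2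
    refine ⟨F ∪ F', max r r', hF.union hF', fun ψ hψ M N _ _ v w hvw => ?_⟩
    rcases hψ with rfl | hψ
    · exact h' M N v w ((hvw.mono_rank (le_max_right _ _)).mono Set.subset_union_right)
    · exact h ψ hψ M N v w ((hvw.mono_rank (le_max_left _ _)).mono Set.subset_union_left)

theorem LE.base [IsEmpty (L.Relations 0)]
    {Φ : ∀ n : ℕ, L.Relations n → Set (L.BoundedFormula Empty n)}
    (hU : FinDep δ Φ) {F F' : Set (Σ n : ℕ, L.Relations n)} {r₀ : ℕ} (hFF : F ⊆ F')
    (hF : ∀ R ∈ F, ∀ φ ∈ Φ R.1 R.2, ∀ (M N : Type) [L.Structure M] [L.Structure N]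
      (v : Fin R.1 → M) (w : Fin R.1 → N), BF F' r₀ v w → (Tr φ v ↔ Tr φ w))
    {n : ℕ} {xs : Fin n → Sm δ C} {ys : Fin n → Sm δ D} (h : LE F' r₀ xs ys) :
    BF F 0 xs ys := by
  constructor
  · intro j k
    have key : ∀ (e1 : (xs j).1 = (xs k).1) (e2 : (ys j).1 = (ys k).1),
        xs j = xs k ↔ ys j = ys k := by
      intro e1 e2
      obtain ⟨a, ha⟩ := eq_inn (xs k) e1.symm
      obtain ⟨b, hb⟩ := eq_inn (ys k) e2.symm
      have h1 := h.2 2 ![j, k] (xs j).1 ![(xs j).2, a] (ys j).1 ![(ys j).2, b] Nat.two_pos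
        (fun l => by
          fin_cases l
          · rfl
          · exact ha)
        (fun l => by
          fin_cases l
          · rfl
          · exact hb)
      have h2 := (h1.mono_rank (Nat.zero_le _)).1 0 1
      simp only [Matrix.cons_val_zero, Matrix.cons_val_one] at h2
      constructor
      · intro h3
        rw [hb, ← h2.1]
        · rfl
        · refine inn_inj (δ := δ) (i := (xs j).1) ?_
          rw [← ha]
          exact h3
      · intro h3
        rw [ha, ← h2.2]
        · rfl
        · refine inn_inj (δ := δ) (i := (ys j).1) ?_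
          rw [← hb]
          exact h3
    constructor
    · intro e
      have e1 : (xs j).1 = (xs k).1 := congrArg Sigma.fst e
      exact (key e1 ((h.1 j k).1 e1)).1 e
    · intro e
      have e2 : (ys j).1 = (ys k).1 := congrArg Sigma.fst e
      exact (key ((h.1 j k).2 e2) e2).2 e
  · intro R hR s
    have hn : 0 < R.1 := by
      rcases R with ⟨m, R⟩
      cases m with
      | zero => exact isEmptyElim R
      | succ m => exact Nat.succ_pos m
    by_cases hs : ∃ j k, (xs (s j)).1 ≠ (xs (s k)).1
    · have hs' : ∃ j k, (ys (s j)).1 ≠ (ys (s k)).1 := by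
        obtain ⟨j, k, hjk⟩ := hs
        exact ⟨j, k, fun e => hjk ((h.1 _ _).2 e)⟩
      rw [relMap_out R.2 (xs ∘ s) hs, relMap_out R.2 (ys ∘ s) hs']
      have e1 : (fun j k => ((xs ∘ s) j).1 = ((xs ∘ s) k).1) =
          fun j k => ((ys ∘ s) j).1 = ((ys ∘ s) k).1 := by
        funext j k
        exact propext (h.1 _ _)
      rw [e1]
      refine hU.dep _ _ _ _ _ fun φ hφ s' => ?_
      constructor
      · rintro ⟨i, v, h1, h2⟩
        have h3 : ∀ l, (ys (s (s' l))).1 = (ys (s (s' ⟨0, hn⟩))).1 := fun l =>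
          (h.1 _ _).1 ((congrArg Sigma.fst (h1 l)).trans (congrArg Sigma.fst (h1 ⟨0, hn⟩)).symm)
        choose w hw using fun l => eq_inn (ys (s (s' l))) (h3 l)
        exact ⟨_, w, hw, (hF R hR φ hφ _ _ v w (h.2 R.1 (s ∘ s') i v _ w hn h1 hw)).1 h2⟩
      · rintro ⟨i, w, h1, h2⟩
        have h3 : ∀ l, (xs (s (s' l))).1 = (xs (s (s' ⟨0, hn⟩))).1 := fun l =>
          (h.1 _ _).2 ((congrArg Sigma.fst (h1 l)).trans (congrArg Sigma.fst (h1 ⟨0, hn⟩)).symm)
        choose v hv using fun l => eq_inn (xs (s (s' l))) (h3 l)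
        exact ⟨_, v, hv, (hF R hR φ hφ _ _ v w (h.2 R.1 (s ∘ s') _ v i w hn hv h1)).2 h2⟩
    · have hs1 : ∀ k, (xs (s k)).1 = (xs (s ⟨0, hn⟩)).1 := by
        intro k
        by_contra hk
        exact hs ⟨_, _, hk⟩
      have hs2 : ∀ k, (ys (s k)).1 = (ys (s ⟨0, hn⟩)).1 := fun k => (h.1 _ _).1 (hs1 k)
      choose v hv using fun k => eq_inn (xs (s k)) (hs1 k)
      choose w hw using fun k => eq_inn (ys (s k)) (hs2 k)
      have e1 : xs ∘ s = fun k => inn δ _ (v k) := funext hv
      have e2 : ys ∘ s = fun k => inn δ _ (w k) := funext hw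
      rw [e1, e2, relMap_in hn, relMap_in hn]
      have h3 := (h.2 R.1 s _ v _ w hn hv hw).mono_rank (Nat.zero_le _)
      exact h3.2 R (hFF hR) id

theorem LE.bf [IsEmpty (L.Relations 0)]
    {Φ : ∀ n : ℕ, L.Relations n → Set (L.BoundedFormula Empty n)}
    (hU : FinDep δ Φ) {F F' : Set (Σ n : ℕ, L.Relations n)} {r₀ : ℕ} (hFF : F ⊆ F')
    (hF' : F'.Finite)
    (hF : ∀ R ∈ F, ∀ φ ∈ Φ R.1 R.2, ∀ (M N : Type) [L.Structure M] [L.Structure N]
      (v : Fin R.1 → M) (w : Fin R.1 → N), BF F' r₀ v w → (Tr φ v ↔ Tr φ w))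
    (hc : SameCount L C D) (r : ℕ) :
    ∀ {n : ℕ} {xs : Fin n → Sm δ C} {ys : Fin n → Sm δ D}, LE F' (r + r₀) xs ys →
      BF F r xs ys := by
  induction r with
  | zero =>
    intro n xs ys h
    rw [Nat.zero_add] at h
    exact h.base hU hFF hF
  | succ r ih =>
    intro n xs ys h
    have h' : LE F' (r + r₀ + 1) xs ys := by
      have e1 : r + 1 + r₀ = r + r₀ + 1 := by omega
      rwa [e1] at h
    refine ⟨ih (h'.mono_rank (Nat.le_succ _)), fun c => ?_, fun d => ?_⟩
    · obtain ⟨d, hd⟩ := h'.forth hF' hc c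
      exact ⟨d, ih hd⟩
    · obtain ⟨c, hc⟩ := h'.symm.forth hF' hc.symm d
      exact ⟨c, ih hc.symm⟩

/-- the data for the induction -/
theorem exists_bound {Φ : ∀ n : ℕ, L.Relations n → Set (L.BoundedFormula Empty n)}
    (hU : FinDep δ Φ) {F : Set (Σ n : ℕ, L.Relations n)} (hFf : F.Finite) :
    ∃ (F' : Set (Σ n : ℕ, L.Relations n)) (r₀ : ℕ), F ⊆ F' ∧ F'.Finite ∧
      ∀ R ∈ F, ∀ φ ∈ Φ R.1 R.2, ∀ (M N : Type) [L.Structure M] [L.Structure N]
        (v : Fin R.1 → M) (w : Fin R.1 → N), BF F' r₀ v w → (Tr φ v ↔ Tr φ w) := by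
  obtain ⟨F', r₀, hF', h⟩ := exists_rank_fin (L := L)
    (⋃ R ∈ F, (fun φ => (⟨R.1, φ⟩ : Σ n : ℕ, L.BoundedFormula Empty n)) '' Φ R.1 R.2)
    (hFf.biUnion fun R _ => (hU.fin _ _).image _)
  refine ⟨F ∪ F', r₀, Set.subset_union_left, hFf.union hF', fun R hR φ hφ M N _ _ v w hvw => ?_⟩
  exact h ⟨R.1, φ⟩ (Set.mem_iUnion₂.2 ⟨R, hR, φ, hφ, rfl⟩) M N v w
    (hvw.mono Set.subset_union_right)

/-- **Elementary equivalence of sums.** -/
theorem eeq_sum [IsEmpty (L.Relations 0)]
    {Φ : ∀ n : ℕ, L.Relations n → Set (L.BoundedFormula Empty n)}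
    (hU : FinDep δ Φ) (hc : SameCount L C D) {n : ℕ} {xs : Fin n → Sm δ C}
    {ys : Fin n → Sm δ D} (h1 : ∀ j k, (xs j).1 = (xs k).1 ↔ (ys j).1 = (ys k).1)
    (h2 : ∀ (m : ℕ) (s : Fin m → Fin n) (i : I) (v : Fin m → C i) (i' : J) (w : Fin m → D i'),
      0 < m → (∀ l, xs (s l) = inn δ i (v l)) → (∀ l, ys (s l) = inn δ i' (w l)) →
        EEq L v w) : EEq L xs ys := by
  refine eeq_of_bf inferInstance fun F hF r => ?_
  obtain ⟨F', r₀, hFF, hF', h3⟩ := exists_bound hU hF
  refine LE.bf hU hFF hF' h3 hc r ⟨h1, ?_⟩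
  intro m s i v i' w hm e1 e2
  exact (h2 m s i v i' w hm e1 e2).bf hF' _

/-- every pair of elements of one sum is matched by a pair of elements of the other one, with the
same pattern and with the same truth value of a given formula -/
theorem exists_pair [IsEmpty (L.Relations 0)]
    {Φ : ∀ n : ℕ, L.Relations n → Set (L.BoundedFormula Empty n)}
    (hU : FinDep δ Φ) (hc : SameCount L C D) (ε : L.BoundedFormula Empty 2) (x y : Sm δ C) :
    ∃ x' y' : Sm δ D, (Tr ε ![x, y] ↔ Tr ε ![x', y']) ∧ (x.1 = y.1 ↔ x'.1 = y'.1) := by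
  obtain ⟨F, r, hF, h⟩ := exists_rank (L := L) inferInstance ε
  obtain ⟨F', r₀, hFF, hF', h3⟩ := exists_bound hU hF
  have h0 : LE F' (r + r₀ + 1 + 1) (Fin.elim0 : Fin 0 → Sm δ C) (Fin.elim0 : Fin 0 → Sm δ D) :=
    ⟨fun j => j.elim0, fun m s i v i' w hm _ _ => (s ⟨0, hm⟩).elim0⟩
  obtain ⟨x', h1⟩ := h0.forth hF' hc x
  obtain ⟨y', h2⟩ := h1.forth hF' hc y
  have e1 : ∀ {X : Type} (a b : X), sn (sn Fin.elim0 a) b = ![a, b] := by
    intro X a b
    funext j
    fin_cases j
    · exact (sn_castSucc _ _ (Fin.last 0)).trans (sn_last _ _)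
    · exact sn_last _ _
  rw [e1, e1] at h2
  exact ⟨x', y', h _ _ _ _ (LE.bf hU hFF hF' h3 hc r h2), h2.1 0 1⟩

end Pool.Agent.TH74.Martin
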