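import Pool.Agent.TH74.Martin.Decomp

set_option autoImplicit false
set_option linter.unusedSectionVars false

/-!
# Translation of the formulas of `L₁(S)` about a class into formulas of `L₁(T)`
-/

namespace Pool.Agent.TH74.Martin

open FirstOrder FirstOrder.Language

variable {L : FirstOrder.Language.{0, 0}}

instance {δ : Cross L} {I : Type} {C : I → Type} [Nonempty I] [∀ i, Nonempty (C i)] :
    Nonempty (Sm δ C) :=
  ⟨⟨Classical.arbitrary I, Classical.arbitrary _⟩⟩

instance {δ : Cross L} {I : Type} {C : I → Type} [Countable I] [∀ i, Countable (C i)] :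
    Countable (Sm δ C) :=
  inferInstanceAs (Countable (Σ i, C i))

theorem th_iff {X Y : Type} [L.Structure X] [L.Structure Y] :
    Y ⊨ L.completeTheory X ↔ ∀ σ : L.Sentence, X ⊨ σ ↔ Y ⊨ σ := by
  constructor
  · intro h σ
    constructor
    · intro h1
      exact h.realize_of_mem σ h1
    · intro h1
      by_contra h2
      have h3 : X ⊨ Formula.not σ := (Sentence.realize_not X).2 h2
      exact (Sentence.realize_not Y).1 (h.realize_of_mem (Formula.not σ)
        (L.mem_completeTheory.2 h3)) h1
  · intro h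
    exact ⟨fun σ hσ => (h σ).1 hσ⟩

theorem eeq_elim0 {X Y : Type} [L.Structure X] [L.Structure Y]
    (h : ∀ σ : L.Sentence, X ⊨ σ ↔ Y ⊨ σ) (v : Fin 0 → X) (w : Fin 0 → Y) : EEq L v w := by
  intro φ
  have e1 : v = Fin.elim0 := Subsingleton.elim _ _
  have e2 : w = Fin.elim0 := Subsingleton.elim _ _
  rw [e1, e2, tr_sentence, tr_sentence]
  exact h φ

theorem eeq_of_tp {X Y : Type} [L.Structure X] [L.Structure Y] {k : ℕ} {a : Fin k → X}
    {w : Fin k → Y} (h : ∀ φ : L.BoundedFormula Empty k, Tr φ a → Tr φ w) : EEq L a w := by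
  intro φ
  refine ⟨h φ, fun h1 => ?_⟩
  by_contra h2
  exact h φ.not h2 h1

theorem same_sentences {T : L.Theory} (hT : T.IsComplete) {X Y : Type} [L.Structure X]
    [L.Structure Y] [Nonempty X] [Nonempty Y] (hX : X ⊨ T) (hY : Y ⊨ T) (σ : L.Sentence) :
    X ⊨ σ ↔ Y ⊨ σ :=
  (hT.realize_sentence_iff σ X).trans (hT.realize_sentence_iff σ Y).symm

variable [L.IsRelational] [IsEmpty (L.Relations 0)]

/-- `p` is the type, in a sum which is a model of `T`, of a tuple of type `q` in a summand
satisfying `S` -/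
def Good {T : L.Theory} {ε : L.BoundedFormula Empty 2} (h : IsSum T ε) (S : L.Theory) {k : ℕ}
    (q p : Set (L.BoundedFormula Empty k)) : Prop :=
  ∃ (I : Type) (C : I → Type) (_ : ∀ i, L.Structure (C i)) (_ : Nonempty I) (_ : Countable I)
    (_ : ∀ i, Nonempty (C i)) (_ : ∀ i, Countable (C i)) (i : I) (v : Fin k → C i),
    Dfs (crossOf h) ε C ∧ Sm (crossOf h) C ⊨ T ∧ C i ⊨ S ∧ q = {φ | Tr φ v} ∧
      p = {φ | Tr φ fun j => inn (crossOf h) i (v j)}

theorem Good.isCompleteType {T : L.Theory} {ε : L.BoundedFormula Empty 2} {h : IsSum T ε} {S : L.Theory}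
    {k : ℕ} {q p : Set (L.BoundedFormula Empty k)} (hg : Good h S q p) : IsCompleteType T p := by
  obtain ⟨I, C, i1, i2, i3, i4, i5, i, v, hC, hM, -, -, hp⟩ := hg
  exact ⟨Sm (crossOf h) C, inferInstance, inferInstance, inferInstance, _, hM, hp⟩

open Classical in
/-- the translation; the class is that of the variable `x` -/
noncomputable def trL {T : L.Theory} {ε : L.BoundedFormula Empty 2} (h : IsSum T ε) (S : L.Theory) {m : ℕ}
    (x : Fin m) : ∀ {n : ℕ}, L1 S n → L1 T (m + n)
  | _, .fo φ => .fo (rl ε x φ)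
  | _, .conj q _ v => if hg : ∃ p, Good h S q p then
      .conj hg.choose hg.choose_spec.isCompleteType (fun j => Fin.natAdd m (v j))
      else .fo .falsum
  | _, .not φ => .not (trL h S x φ)
  | _, .and φ ψ => .and (trL h S x φ) (trL h S x ψ)
  | n, .all φ => .all (.not (.and
      (.fo (sub ε ![(Fin.castAdd n x).castSucc, Fin.last (m + n)])) (.not (trL h S x φ))))

theorem sameCount {T : L.Theory} (hT : T.IsComplete) {ε : L.BoundedFormula Empty 2} (h : IsSum T ε)
    {I J : Type} {C : I → Type} {D : J → Type} [∀ i, L.Structure (C i)]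
    [∀ j, L.Structure (D j)] [Nonempty I] [Nonempty J] [∀ i, Nonempty (C i)]
    [∀ j, Nonempty (D j)] (hC : Dfs (crossOf h) ε C) (hD : Dfs (crossOf h) ε D)
    (hM : Sm (crossOf h) C ⊨ T) (hN : Sm (crossOf h) D ⊨ T) : SameCount L C D :=
  sameCount_of (δ := crossOf h) hC hD fun σ => same_sentences hT hM hN σ

theorem sat_trL {T : L.Theory} (hT : T.IsComplete) {ε : L.BoundedFormula Empty 2} (h : IsSum T ε)
    {X : Type} [L.Structure X] {I : Type} {C : I → Type} [∀ i, L.Structure (C i)] [Nonempty I]
    [Countable I] [∀ i, Nonempty (C i)] [∀ i, Countable (C i)] (hC : Dfs (crossOf h) ε C)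
    (hM : Sm (crossOf h) C ⊨ T) {i : I} (hi : C i ⊨ L.completeTheory X) {m : ℕ} (x : Fin m)
    {n : ℕ} (θ : L1 (L.completeTheory X) n) :
    ∀ (z : Fin (m + n) → Sm (crossOf h) C) (v : Fin n → C i),
      (∀ k, z (Fin.natAdd m k) = inn _ i (v k)) → (z (Fin.castAdd n x)).1 = i →
        ((trL h (L.completeTheory X) x θ).Sat z ↔ θ.Sat v) := by
  classical
  induction θ with
  | fo φ => exact fun z v hz hx => tr_rl hC x φ z v hz hx
  | @conj n k q hq u =>
    intro z v hz hx
    let w : Fin k → C i := fun j => v (u j)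
    have hw : (fun j => z (Fin.natAdd m (u j))) = fun j => inn (crossOf h) i (w j) :=
      funext fun j => hz (u j)
    by_cases hg : ∃ p, Good h (L.completeTheory X) q p
    · have e1 : trL h (L.completeTheory X) x (L1.conj q hq u) =
          .conj hg.choose hg.choose_spec.isCompleteType (fun j => Fin.natAdd m (u j)) := by
        rw [trL, dif_pos hg]
      rw [e1]
      change (∀ φ ∈ hg.choose, Tr φ fun j => z (Fin.natAdd m (u j))) ↔ ∀ φ ∈ q, Tr φ w
      rw [hw]
      obtain ⟨I', C', i1, i2, i3, i4, i5, i', v', hC', hM', hi', hq', hp'⟩ := hg.choose_spec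
      have hsent : ∀ σ : L.Sentence, C' i' ⊨ σ ↔ C i ⊨ σ := fun σ =>
        (th_iff.1 hi' σ).symm.trans (th_iff.1 hi σ)
      constructor
      · intro h1
        have h2 : EEq L (fun j => inn (crossOf h) i' (v' j))
            (fun j => inn (crossOf h) i (w j)) := by
          refine eeq_of_tp fun φ hφ => h1 φ ?_
          rw [hp']
          exact hφ
        have h3 : EEq L v' w := by
          rcases Nat.eq_zero_or_pos k with hk | hk
          · subst hk
            exact eeq_elim0 hsent v' w
          · exact eeq_of_inn hC' hC hk h2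
        intro φ hφ
        rw [hq'] at hφ
        exact (h3 φ).1 hφ
      · intro h1
        have h3 : EEq L v' w := by
          refine eeq_of_tp fun φ hφ => h1 φ ?_
          rw [hq']
          exact hφ
        have h2 : EEq L (fun j => inn (crossOf h) i' (v' j))
            (fun j => inn (crossOf h) i (w j)) := by
          refine eeq_sum (finDep_crossOf h) (sameCount hT h hC' hC hM' hM)
            (fun j k => iff_of_true rfl rfl) fun m' s i1' v1 i2' w1 hm' h4 h5 => ?_
          obtain rfl : i' = i1' := congrArg Sigma.fst (h4 ⟨0, hm'⟩)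
          obtain rfl : i = i2' := congrArg Sigma.fst (h5 ⟨0, hm'⟩)
          have e2 : v1 = v' ∘ s := funext fun l => (inn_inj (h4 l)).symm
          have e3 : w1 = w ∘ s := funext fun l => (inn_inj (h5 l)).symm
          rw [e2, e3]
          exact h3.comp inferInstance s
        intro φ hφ
        rw [hp'] at hφ
        exact (h2 φ).1 hφ
    · have e1 : trL h (L.completeTheory X) x (L1.conj q hq u) = .fo .falsum := by
        rw [trL, dif_neg hg]
      rw [e1]
      refine iff_of_false id fun h1 => hg ?_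
      have h1' : ∀ φ ∈ q, Tr φ w := h1
      obtain ⟨Y, j1, j2, j3, a, hY, hqa⟩ := hq
      refine ⟨_, I, C, inferInstance, inferInstance, inferInstance, inferInstance,
        inferInstance, i, w, hC, hM, hi, ?_, rfl⟩
      rw [hqa]
      ext φ
      refine (eeq_of_tp fun φ hφ => h1' φ ?_) φ
      rw [hqa]
      exact hφ
  | not φ ih => exact fun z v hz hx => not_congr (ih z v hz hx)
  | and φ ψ ih1 ih2 => exact fun z v hz hx => and_congr (ih1 z v hz hx) (ih2 z v hz hx)
  | @all n φ ih =>
    intro z v hz hx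
    change (∀ y : Sm (crossOf h) C,
      ¬ (Tr (sub ε ![(Fin.castAdd n x).castSucc, Fin.last (m + n)]) (sn z y) ∧
        ¬ (trL h (L.completeTheory X) x φ).Sat (sn z y))) ↔ ∀ a : C i, φ.Sat (sn v a)
    constructor
    · intro h1 a
      have h2 := h1 (inn _ i a)
      rw [not_and_not_right] at h2
      refine (ih (sn z (inn _ i a)) (sn v a) (snoc_natAdd (inn _ i) z v hz a) ?_).1
        (h2 ((tr_inClass hC x z _).2 hx))
      rw [snoc_castAdd]
      exact hx
    · intro h1 y
      rw [not_and_not_right]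
      intro hy
      obtain ⟨a, rfl⟩ := eq_inn y ((((tr_inClass hC x z y).1 hy).symm.trans hx : y.1 = i))
      refine (ih (sn z (inn _ i a)) (sn v a) (snoc_natAdd (inn _ i) z v hz a) ?_).2 (h1 a)
      rw [snoc_castAdd]
      exact hx

end Pool.Agent.TH74.Martin
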